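import Pool.Agent.Work.MP_db9399_da.Pre2

/-! # DENSE-ALL phase 2: INI, the start of the exchanges (helper93) -/

set_option autoImplicit false

namespace Pool.Agent.Work.MP_db9399_da.helper93

open Finset Classical
open Pool.Agent.Work.MP_db9399_all (nb)
open Pool.Agent.Work.MP_db9399_lt (us)
open Pool.Agent.Work.MP_db9399_da
open Pool.Agent.Work.MP_db9399_da.helper82 (EC StepR alc)

universe u

section ini
variable {V : Type u} [Fintype V] {M : ℕ}

theorem mem_nb3 (G : SimpleGraph V) (v w : V) : w ∈ nb G v ↔ G.Adj v w := by simp [nb]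

omit [Fintype V] in
theorem thin_of_V0 (G : SimpleGraph V) (P : Pcs V M) {z w : V} (hz : z ∈ P.V0)
    (h : G.Adj z w) : (thin G P).Adj z w := ⟨h, fun h' => h'.2.1 hz⟩

omit [Fintype V] in
theorem thin2_of_thin (G : SimpleGraph V) (P : Pcs V M) (X : HD V) {v w : V}
    (h : (thin G P).Adj v w) : (thin2 G X P).Adj v w := ⟨h.1, fun h' => h.2 h'.1⟩

omit [Fintype V] in
theorem thin_of_thin2 (G : SimpleGraph V) (P : Pcs V M) (X : HD V) {v w : V}
    (h : (thin2 G X P).Adj v w) (hH : ¬ X.H.Adj v w) : (thin G P).Adj v w :=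
  ⟨h.1, fun h' => h.2 ⟨h', hH⟩⟩

theorem mem_Fc (G : SimpleGraph V) (P : Pcs V M) (t : V → V → ℕ) (v : V) (b : ℕ) :
    b ∈ Fc G P t v ↔ ∃ w, (thin G P).Adj v w ∧ t v w = b := by
  unfold Fc
  rw [mem_image]
  simp only [mem_nb3]

theorem mem_Fc2 (G : SimpleGraph V) (P : Pcs V M) (X : HD V) (t : V → V → ℕ) (v : V) (b : ℕ) :
    b ∈ Fc2 G X P t v ↔ ∃ w, (thin2 G X P).Adj v w ∧ t v w = b := by
  unfold Fc2
  rw [mem_image]
  simp only [mem_nb3]

omit [Fintype V] in
theorem ini_H (d : ℕ) (X : HD V) (t : V → V → ℕ) {v w : V} (h : X.H.Adj v w) :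
    ini d X t v w = d + 2 := by
  unfold ini
  rw [if_pos h]

omit [Fintype V] in
theorem ini_nH (d : ℕ) (X : HD V) (t : V → V → ℕ) {v w : V} (h : ¬ X.H.Adj v w) :
    ini d X t v w = t v w := by
  unfold ini
  rw [if_neg h]

/-- the colours `< d + 2` at the start -/
theorem ini_Fc2 (G : SimpleGraph V) (d : ℕ) (P : Pcs V M) (X : HD V) (t : V → V → ℕ) (v : V)
    (b : ℕ) (hb : b < d + 2) :
    b ∈ Fc2 G X P (ini d X t) v ↔ ∃ w, (thin G P).Adj v w ∧ ¬ X.H.Adj v w ∧ t v w = b := by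
  rw [mem_Fc2]
  constructor
  · rintro ⟨w, h1, h2⟩
    have hn : ¬ X.H.Adj v w := by
      intro h
      rw [ini_H d X t h] at h2
      omega
    rw [ini_nH d X t hn] at h2
    exact ⟨w, thin_of_thin2 G P X h1 hn, hn, h2⟩
  · rintro ⟨w, h1, hn, h2⟩
    exact ⟨w, thin2_of_thin G P X h1, by rw [ini_nH d X t hn]; exact h2⟩

theorem ini_Fc (G : SimpleGraph V) (d : ℕ) (P : Pcs V M) (X : HD V) (t : V → V → ℕ) (v : V)
    (b : ℕ) (hb : b < d + 2) (h : b ∈ Fc2 G X P (ini d X t) v) : b ∈ Fc G P t v := by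
  rw [ini_Fc2 G d P X t v b hb] at h
  obtain ⟨w, h1, _, h2⟩ := h
  exact (mem_Fc G P t v b).2 ⟨w, h1, h2⟩

theorem need_zero {U : Type u} [Fintype U] (F : U → Finset ℕ) (sd : U → Bool) (β : Bool) (b : ℕ)
    (h : sg F sd b = 0) : need F sd β b = 0 := by
  unfold sg at h
  unfold need
  have h' : (sid sd false ∩ us F b).card = (sid sd true ∩ us F b).card := by
    have := sub_eq_zero.1 h
    exact_mod_cast this
  cases β
  · simp [h']
  · simp [h']

theorem need_congr {U : Type u} [Fintype U] (F F' : U → Finset ℕ) (sd : U → Bool) (β : Bool)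
    (b : ℕ) (h : ∀ v, b ∈ F v ↔ b ∈ F' v) : need F sd β b = need F' sd β b := by
  unfold need
  have : us F b = us F' b := by
    unfold us
    exact filter_congr (fun v _ => h v)
  rw [this]

theorem mem_Bd0 (G : SimpleGraph V) (P : Pcs V M) (X : HD V) (t : V → V → ℕ) (c : V → ℕ) (b : ℕ) :
    b ∈ Bd0 G P X t c ↔ (∃ v w, X.H.Adj v w ∧ (thin G P).Adj v w ∧ t v w = b) ∨
      (∃ z ∈ X.S0, ∃ w, G.Adj z w ∧ t z w ∈ X.ne z w ∧ t z w = b) ∨
      ∃ z ∈ X.VH, z ∈ P.V0 ∧ c z = b := by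
  unfold Bd0
  rw [mem_union, mem_union, or_assoc]
  refine or_congr ?_ (or_congr ?_ ?_)
  · rw [mem_image]
    constructor
    · rintro ⟨⟨v, w⟩, h1, h2⟩
      rw [mem_filter] at h1
      exact ⟨v, w, h1.2.1, h1.2.2, h2⟩
    · rintro ⟨v, w, h1, h2, h3⟩
      exact ⟨(v, w), by rw [mem_filter]; exact ⟨mem_univ _, h1, h2⟩, h3⟩
  · rw [mem_image]
    constructor
    · rintro ⟨⟨v, w⟩, h1, h2⟩
      rw [mem_filter, mem_product] at h1
      exact ⟨v, h1.1.1, w, h1.2.1, h1.2.2, h2⟩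
    · rintro ⟨v, h0, w, h1, h2, h3⟩
      exact ⟨(v, w), by rw [mem_filter, mem_product]; exact ⟨⟨h0, mem_univ _⟩, h1, h2⟩, h3⟩
  · rw [mem_image]
    constructor
    · rintro ⟨z, h1, h2⟩
      rw [mem_inter] at h1
      exact ⟨z, h1.1, h1.2, h2⟩
    · rintro ⟨z, h1, h2, h3⟩
      exact ⟨z, by rw [mem_inter]; exact ⟨h1, h2⟩, h3⟩

/-- number of (ordered) edges of `X.H` -/
theorem H_card (k d : ℕ) (G : SimpleGraph V) (X : HD V) (h : HP k d G X) :
    ((univ : Finset (V × V)).filter (fun p => X.H.Adj p.1 p.2)).card ≤ 2 * k := by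
  set A : Finset (V × V) := (univ : Finset (V × V)).filter
    (fun p => X.H.Adj p.1 p.2 ∧ p.1 ∈ X.VH) with hA
  set B : Finset (V × V) := (univ : Finset (V × V)).filter
    (fun p => X.H.Adj p.1 p.2 ∧ p.2 ∈ X.VH) with hB
  have hAk : A.card ≤ k := by
    refine le_trans ?_ h.VHk
    apply card_le_card_of_injOn (fun p => p.1)
    · intro p hp
      have := (mem_filter.1 (mem_coe.1 hp)).2.2
      exact this
    · intro p hp q hq he
      have h1 := (mem_filter.1 (mem_coe.1 hp)).2.1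
      have h2 := (mem_filter.1 (mem_coe.1 hq)).2.1
      have he' : p.1 = q.1 := he
      rw [← he'] at h2
      exact Prod.ext he' (h.Hm p.1 p.2 q.2 h1 h2)
  have hBk : B.card ≤ k := by
    refine le_trans ?_ h.VHk
    apply card_le_card_of_injOn (fun p => p.2)
    · intro p hp
      have := (mem_filter.1 (mem_coe.1 hp)).2.2
      exact this
    · intro p hp q hq he
      have h1 := (mem_filter.1 (mem_coe.1 hp)).2.1
      have h2 := (mem_filter.1 (mem_coe.1 hq)).2.1
      have he' : p.2 = q.2 := he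
      rw [← he'] at h2
      exact Prod.ext (h.Hm p.2 p.1 q.1 h1.symm h2.symm) he'
  have hsub : (univ : Finset (V × V)).filter (fun p => X.H.Adj p.1 p.2) ⊆ A ∪ B := by
    intro p hp
    have h1 := (mem_filter.1 hp).2
    rw [mem_union]
    rcases h.HH p.1 p.2 h1 with h2 | h2
    · left; exact mem_filter.2 ⟨mem_univ _, h1, h2⟩
    · right; exact mem_filter.2 ⟨mem_univ _, h1, h2⟩
  calc _ ≤ (A ∪ B).card := card_le_card hsub
    _ ≤ A.card + B.card := card_union_le _ _
    _ ≤ 2 * k := by omega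

end ini

theorem stmt_INI : Stmt_INI.{u} := by
  intro C g ρ K π κ ε ε2 σ τ ζ θ M k k2 K5 L V _ G d P A X Ss t0 c Sp hC
  have hpre := hC.pre
  have hsh := hC.sh
  have hhp := hC.hp
  have hnu := hC.nu
  have hcl : ∀ z ∈ P.V0, c z < d + 2 := by
    intro z hz
    have h1 : c z ∈ Sp := by rw [hpre.own]; exact mem_image_of_mem c hz
    have h2 := hpre.SC h1
    unfold Pal.C0 at h2
    exact mem_range.1 (mem_sdiff.1 h2).1
  have hSs : ∀ b ∈ Ss, b < d + 2 := by
    intro b hb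
    have h2 := hC.sC hb
    unfold Pal.C0 at h2
    exact mem_range.1 (mem_sdiff.1 h2).1
  have hS2 : ∀ b, b ∈ Sp2 P X c → b ∈ Sp := by
    intro b hb
    unfold Sp2 at hb
    obtain ⟨z, hz, rfl⟩ := mem_image.1 hb
    rw [hpre.own]
    exact mem_image_of_mem c (mem_sdiff.1 hz).1
  refine ⟨⟨?_, ?_, ?_, ?_, ?_, ?_, ?_, ?_, ?_, ?_, ?_, ?_, ?_, ?_, ?_, ?_, ?_, ?_⟩, ?_⟩
  · -- ec
    refine ⟨?_, ?_⟩
    · intro v w
      by_cases h : X.H.Adj v w
      · rw [ini_H d X t0 h, ini_H d X t0 h.symm]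
      · rw [ini_nH d X t0 h, ini_nH d X t0 (fun h' => h h'.symm), hpre.sym]
    · intro v w w' h1 h2 he
      by_cases h : X.H.Adj v w
      · by_cases h' : X.H.Adj v w'
        · exact hhp.Hm v w w' h h'
        · rw [ini_H d X t0 h, ini_nH d X t0 h'] at he
          have := hpre.lt v w' (thin_of_thin2 G P X h2 h')
          omega
      · by_cases h' : X.H.Adj v w'
        · rw [ini_H d X t0 h', ini_nH d X t0 h] at he
          have := hpre.lt v w (thin_of_thin2 G P X h1 h)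
          omega
        · rw [ini_nH d X t0 h, ini_nH d X t0 h'] at he
          exact hpre.inj v (mem_coe.2 ((mem_nb3 _ _ _).2 (thin_of_thin2 G P X h1 h)))
            (mem_coe.2 ((mem_nb3 _ _ _).2 (thin_of_thin2 G P X h2 h'))) he
  · -- dm
    intro v w h
    exact ini_H d X t0 h
  · -- lt
    intro v w h hn
    rw [ini_nH d X t0 hn]
    exact hpre.lt v w (thin_of_thin2 G P X h hn)
  · -- al
    intro v hv b hb hbd
    have hb' := ini_Fc G d P X t0 v b hbd hb
    unfold alc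
    by_cases hK : P.ty (P.pc v) = Ty.K
    · rw [if_pos hK]
      exact fun h => disjoint_left.1 (hpre.rK v hv hK) hb' h
    · rw [if_neg hK]
      have hNB : P.ty (P.pc v) = Ty.N ∨ P.ty (P.pc v) = Ty.B := by
        cases hE : P.ty (P.pc v) with
        | E => exact ((hC.dec.emp (P.pc v) hE).false ⟨v, hv, rfl⟩).elim
        | K => exact absurd hE hK
        | N => left; rfl
        | B => right; rfl
      exact fun h => disjoint_left.1 (hpre.rN v hv hNB) hb' h
  · -- UP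
    exact empty_subset _
  · -- Ud
    exact disjoint_empty_left _
  · -- Uc
    simp
  · -- B0
    exact Subset.refl _
  · -- Bp
    rw [disjoint_left]
    intro b hb hb2
    rw [mem_Bd0] at hb
    rcases hb with ⟨v, w, h1, h2, h3⟩ | ⟨z, hz, w, h1, h2, h3⟩ | ⟨z, hz, hz0, h3⟩
    · exact hsh.e0 v w h1 h2 (h3 ▸ hS2 b hb2)
    · exact (hsh.badV z hz w h1 h2).2 (h3 ▸ hS2 b hb2)
    · unfold Sp2 at hb2
      obtain ⟨y, hy, hyb⟩ := mem_image.1 hb2
      rw [mem_sdiff] at hy
      have := hpre.oin (mem_coe.2 hz0) (mem_coe.2 hy.1) (h3.trans hyb.symm)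
      exact hy.2 (this ▸ hz)
  · -- B2
    intro hb
    rw [mem_Bd0] at hb
    rcases hb with ⟨v, w, h1, h2, h3⟩ | ⟨z, hz, w, h1, h2, h3⟩ | ⟨z, hz, hz0, h3⟩
    · have := hpre.lt v w h2
      omega
    · have := hpre.lt z w (thin_of_V0 G P (hC.sup z hz).1 h1)
      omega
    · have := hcl z hz0
      omega
  · -- ch
    intro v w _ hn hne
    exact absurd (ini_nH d X t0 hn) hne
  · -- cn
    rw [Nat.mul_zero, Nat.le_zero, card_eq_zero, filter_eq_empty_iff]
    rintro ⟨v, w⟩ _ ⟨_, hn, hne⟩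
    exact hne (ini_nH d X t0 hn)
  · -- tc
    intro b hbd _ hbB _ v _
    constructor
    · exact ini_Fc G d P X t0 v b hbd
    · intro h
      rw [ini_Fc2 G d P X t0 v b hbd]
      obtain ⟨w, h1, h2⟩ := (mem_Fc G P t0 v b).1 h
      refine ⟨w, h1, ?_, h2⟩
      intro hH
      apply hbB
      rw [mem_Bd0]
      exact Or.inl ⟨v, w, hH, h1, h2⟩
  · -- E
    intro n hn β
    unfold EXI
    rw [sum_empty, Nat.le_zero]
    apply sum_eq_zero
    intro b hb
    have hbS : b ∈ Ss := (mem_filter.1 hb).1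
    have h0 := need_zero _ _ β b (hsh.zero n hn b hbS)
    rw [← h0]
    apply need_congr
    rintro ⟨v, hv0, hvn⟩
    change b ∈ Fc2 G X P (ini d X t0) v ↔ b ∈ Fc G P t0 v
    constructor
    · exact ini_Fc G d P X t0 v b (hSs b hbS)
    · intro h
      rw [ini_Fc2 G d P X t0 v b (hSs b hbS)]
      obtain ⟨w, h1, h2⟩ := (mem_Fc G P t0 v b).1 h
      refine ⟨w, h1, ?_, h2⟩
      intro hH
      rcases hhp.HS v w hH with hv | hv
      · exact hsh.mem v hv hv0 w h1 (h2 ▸ hbS)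
      · exact hv0 (hC.sup v hv).1
  · -- br
    intro z _ w _ hn _
    exact ini_nH d X t0 hn
  · -- own
    intro z hz _ h
    exact hpre.onb z hz (ini_Fc G d P X t0 z _ (hcl z hz) h)
  · -- own2
    intro z _ hz _ h
    exact hpre.onb z hz (ini_Fc G d P X t0 z _ (hcl z hz) h)
  · -- hol
    intro z _ hz u hu _ h
    have htu := thin_of_V0 G P hz (hhp.HG z u hu)
    rw [ini_Fc2 G d P X t0 z _ (hpre.lt z u htu)] at h
    obtain ⟨w, h1, h2, h3⟩ := h
    have := hpre.inj z (mem_coe.2 ((mem_nb3 _ _ _).2 h1)) (mem_coe.2 ((mem_nb3 _ _ _).2 htu)) h3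
    exact h2 (this ▸ hu)
  · -- card
    have h1 : (((univ : Finset (V × V)).filter
        (fun p => X.H.Adj p.1 p.2 ∧ (thin G P).Adj p.1 p.2)).image (fun p => t0 p.1 p.2)).card ≤
        2 * k := by
      refine le_trans card_image_le (le_trans (card_le_card ?_) (H_card k d G X hhp))
      intro p hp
      exact mem_filter.2 ⟨mem_univ _, (mem_filter.1 hp).2.1⟩
    have h2 : (((X.S0 ×ˢ (univ : Finset V)).filter
        (fun p => G.Adj p.1 p.2 ∧ t0 p.1 p.2 ∈ X.ne p.1 p.2)).image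
          (fun p => t0 p.1 p.2)).card ≤ K5 := le_trans card_image_le hsh.bad
    have h3 : ((X.VH ∩ P.V0).image c).card ≤ k :=
      le_trans card_image_le (le_trans (card_le_card inter_subset_left) hhp.VHk)
    have h4 := hnu.kL
    have h5 := hnu.K5L
    unfold Bd0
    refine le_trans (card_union_le _ _) ?_
    refine le_trans (Nat.add_le_add_right (card_union_le _ _) _) ?_
    omega

end Pool.Agent.Work.MP_db9399_da.helper93
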