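import Pool.Agent.Work.MP_db9399_da.Frame

/-!
# MP_db9399, DENSE-ALL: EMB, a regular supergraph (helper93)

Two copies of `V`, two copies of `ZMod m` with `m = |V| + 1`; the deficiencies of `V` go round robin
to `ZMod m`, the rest of the degrees of `ZMod m` by a circulant relation between the two copies.
-/

set_option autoImplicit false

namespace Pool.Agent.Work.MP_db9399_da.helper93

open Finset Classical
open Pool.Agent.Work.MP_db9399_all (nb)

universe u

/-- Balanced loads. -/
theorem robin {V U : Type*} [Fintype U] [DecidableEq U] (f : V → ℕ) (hf : ∀ v, f v ≤ Fintype.card U)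
    (s : Finset V) :
    ∃ (N : V → Finset U) (q : ℕ), (∀ v ∈ s, (N v).card = f v) ∧
      ∀ u, (s.filter (fun v => u ∈ N v)).card = q ∨ (s.filter (fun v => u ∈ N v)).card = q + 1 := by
  induction s using Finset.induction_on with
  | empty => exact ⟨fun _ => ∅, 0, by simp, by simp⟩
  | insert v s hv ih =>
    obtain ⟨N, q, h1, h2⟩ := ih
    set L : U → ℕ := fun u => (s.filter (fun v => u ∈ N v)).card with hL
    set A : Finset U := univ.filter (fun u => L u = q) with hA
    have key : ∃ S : Finset U, S.card = f v ∧ (S ⊆ A ∨ A ⊆ S) := by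
      rcases le_total (f v) A.card with h | h
      · obtain ⟨S, hS, hc⟩ := exists_subset_card_eq h
        exact ⟨S, hc, Or.inl hS⟩
      · obtain ⟨S, hS, _, hc⟩ := exists_subsuperset_card_eq (subset_univ A) h
          (by rw [card_univ]; exact hf v)
        exact ⟨S, hc, Or.inr hS⟩
    obtain ⟨S, hS, hSA⟩ := key
    have hload : ∀ u, ((insert v s).filter (fun w => u ∈ Function.update N v S w)).card =
        L u + if u ∈ S then 1 else 0 := by
      intro u
      have e1 : (s.filter (fun w => u ∈ Function.update N v S w)) =
          s.filter (fun w => u ∈ N w) := by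
        apply filter_congr
        intro w hw
        have hwv : w ≠ v := fun h => hv (h ▸ hw)
        simp [Function.update_of_ne hwv]
      rw [filter_insert, e1, Function.update_self]
      split_ifs with h
      · rw [card_insert_of_notMem (by simp [hv])]
      · simp [hL]
    have hN : ∀ w ∈ insert v s, (Function.update N v S w).card = f w := by
      intro w hw
      rcases eq_or_ne w v with rfl | hwv
      · simp [hS]
      · rw [Function.update_of_ne hwv]
        exact h1 w ((mem_insert.1 hw).resolve_left hwv)
    rcases hSA with hSA | hSA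
    · refine ⟨Function.update N v S, q, hN, ?_⟩
      intro u
      rw [hload]
      split_ifs with h
      · have : L u = q := by simpa [hA] using hSA h
        omega
      · rcases h2 u with h | h <;> [left; right] <;> simpa [hL] using h
    · refine ⟨Function.update N v S, q + 1, hN, ?_⟩
      intro u
      rw [hload]
      split_ifs with h
      · have := h2 u
        change L u = q ∨ L u = q + 1 at this
        omega
      · have hq : L u ≠ q := by
          intro h'
          exact h (hSA (by simp [hA, h']))
        have := h2 u
        change L u = q ∨ L u = q + 1 at this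
        omega

theorem card_val (m k : ℕ) [NeZero m] (hk : k + 1 ≤ m) :
    (univ.filter (fun x : ZMod m => 1 ≤ x.val ∧ x.val ≤ k)).card = k := by
  have : (univ.filter (fun x : ZMod m => 1 ≤ x.val ∧ x.val ≤ k)).card = (Finset.Icc 1 k).card := by
    apply card_bij (fun x _ => x.val)
    · intro x hx
      simpa using hx
    · intro x _ y _ h
      exact ZMod.val_injective m h
    · intro j hj
      rw [Finset.mem_Icc] at hj
      refine ⟨(j : ZMod m), ?_, ?_⟩
      · rw [mem_filter, ZMod.val_natCast_of_lt (by omega)]
        exact ⟨mem_univ _, hj⟩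
      · exact ZMod.val_natCast_of_lt (by omega)
  rw [this]
  simp

theorem card_or {α : Type*} [Fintype α] (p q r : α → Prop) [DecidablePred p] [DecidablePred q]
    [DecidablePred r] (h : ∀ x, r x ↔ p x ∨ q x) (hd : ∀ x, p x → ¬ q x) :
    (univ.filter r).card = (univ.filter p).card + (univ.filter q).card := by
  rw [← card_union_of_disjoint]
  · congr 1
    ext x
    simp [h]
  · rw [disjoint_left]
    intro x hx hx'
    simp only [mem_filter, mem_univ, true_and] at hx hx'
    exact hd x hx hx'

/-- Circulant relation with prescribed row and column sums `k` or `k + 1`. -/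
theorem circ (m k : ℕ) [NeZero m] (hk : k + 1 ≤ m) (B : Finset (ZMod m)) :
    ∃ R : ZMod m → ZMod m → Prop,
      (∀ x, (univ.filter (fun y => R x y)).card = k + if x ∈ B then 1 else 0) ∧
      ∀ y, (univ.filter (fun x => R x y)).card = k + if y ∈ B then 1 else 0 := by
  obtain ⟨R, hR⟩ : ∃ R : ZMod m → ZMod m → Prop, ∀ x y, R x y ↔
      ((1 ≤ (y - x).val ∧ (y - x).val ≤ k) ∨ (x = y ∧ x ∈ B)) := ⟨_, fun _ _ => Iff.rfl⟩
  refine ⟨R, ?_, ?_⟩
  · intro x
    rw [card_or (fun y => 1 ≤ (y - x).val ∧ (y - x).val ≤ k) (fun y => x = y ∧ x ∈ B)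
      (fun y => R x y) (hR x) (by rintro y hy ⟨rfl, _⟩; simp at hy)]
    congr 1
    · refine Eq.trans ?_ (card_val m k hk)
      apply card_bij (fun y _ => y - x)
      · intro y hy
        simpa using hy
      · intro y _ z _ h
        simpa using h
      · intro z hz
        exact ⟨z + x, by simpa using hz, by simp⟩
    · split_ifs with h
      · rw [card_eq_one]
        refine ⟨x, ?_⟩
        ext y
        simp [h, eq_comm]
      · simp [h]
  · intro y
    rw [card_or (fun x => 1 ≤ (y - x).val ∧ (y - x).val ≤ k) (fun x => x = y ∧ x ∈ B)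
      (fun x => R x y) (fun x => hR x y) (by rintro x hx ⟨rfl, _⟩; simp at hx)]
    congr 1
    · refine Eq.trans ?_ (card_val m k hk)
      apply card_bij (fun x _ => y - x)
      · intro x hx
        simpa using hx
      · intro x _ z _ h
        simpa using h
      · intro z hz
        exact ⟨y - z, by simpa using hz, by simp⟩
    · split_ifs with h
      · rw [card_eq_one]
        refine ⟨y, ?_⟩
        ext x
        simp only [mem_filter, mem_univ, true_and, mem_singleton]
        constructor
        · exact fun h' => h'.1
        · rintro rfl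
          exact ⟨rfl, h⟩
      · rw [card_eq_zero, filter_eq_empty_iff]
        rintro x _ ⟨rfl, h'⟩
        exact h h'

/-- The supergraph. -/
def sup {V : Type u} {U : Type} (G : SimpleGraph V) (N : V → Finset U) (R : U → U → Prop) :
    SimpleGraph (Bool × (V ⊕ U)) where
  Adj x y := match x, y with
    | (b, Sum.inl v), (b', Sum.inl w) => b = b' ∧ G.Adj v w
    | (b, Sum.inl v), (b', Sum.inr u) => b = b' ∧ u ∈ N v
    | (b, Sum.inr u), (b', Sum.inl v) => b = b' ∧ u ∈ N v
    | (b, Sum.inr u), (b', Sum.inr u') =>
      (b = false ∧ b' = true ∧ R u u') ∨ (b = true ∧ b' = false ∧ R u' u)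
  symm := ⟨by
    rintro ⟨b, v | u⟩ ⟨b', w | u'⟩ h
    · exact ⟨h.1.symm, h.2.symm⟩
    · exact ⟨h.1.symm, h.2⟩
    · exact ⟨h.1.symm, h.2⟩
    · rcases h with h | h
      · exact Or.inr ⟨h.2.1, h.1, h.2.2⟩
      · exact Or.inl ⟨h.2.1, h.1, h.2.2⟩⟩
  loopless := ⟨by
    rintro ⟨b, v | u⟩ h
    · exact G.loopless.irrefl v h.2
    · rcases h with h | h
      · exact Bool.noConfusion (h.1.symm.trans h.2.1)
      · exact Bool.noConfusion (h.1.symm.trans h.2.1)⟩

theorem card_nb {V : Type*} [Fintype V] (G : SimpleGraph V) (v : V) :
    (nb G v).card = ∑ w, if G.Adj v w then 1 else 0 := by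
  rw [nb, card_filter]

theorem stmt_EMB : Stmt_EMB.{u} := by
  intro V _ G d hd hG hV
  obtain ⟨m, hm⟩ : ∃ m, m = Fintype.card V + 1 := ⟨_, rfl⟩
  have : NeZero m := ⟨by omega⟩
  have hmc : Fintype.card (ZMod m) = m := ZMod.card m
  obtain ⟨N, q, hN, hL⟩ := robin (U := ZMod m) (fun v => d - (nb G v).card)
    (fun v => by rw [hmc]; have := Nat.sub_le d (nb G v).card; omega) (univ : Finset V)
  set L : ZMod m → ℕ := fun u => (univ.filter (fun v => u ∈ N v)).card with hLd
  have hsum : ∑ u, L u = ∑ v, (d - (nb G v).card) := by
    have h1 : ∀ v, d - (nb G v).card = ∑ u, if u ∈ N v then 1 else 0 := by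
      intro v
      rw [← hN v (mem_univ _), ← card_filter]
      congr 1
      ext u
      simp
    simp only [h1, hLd, card_filter]
    rw [sum_comm]
  have hq : q + 1 ≤ d := by
    by_contra hcon
    have h1 : ∑ _u : ZMod m, d ≤ ∑ u, L u := by
      apply sum_le_sum
      intro u _
      have := hL u
      change L u = q ∨ L u = q + 1 at this
      omega
    have h2 : ∑ v, (d - (nb G v).card) ≤ ∑ _v : V, d := sum_le_sum (fun v _ => Nat.sub_le _ _)
    rw [hsum] at h1
    have h3 := h1.trans h2
    simp only [sum_const, card_univ, hmc, smul_eq_mul] at h3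
    rw [hm, add_mul, one_mul] at h3
    omega
  obtain ⟨R, hR1, hR2⟩ := circ m (d - q - 1) (by omega) (univ.filter (fun u => L u = q))
  have ha : ∀ u, L u + (d - q - 1 + if u ∈ univ.filter (fun u => L u = q) then 1 else 0) = d := by
    intro u
    have := hL u
    change L u = q ∨ L u = q + 1 at this
    split_ifs with h
    · simp only [mem_filter, mem_univ, true_and] at h
      omega
    · simp only [mem_filter, mem_univ, true_and] at h
      omega
  refine ⟨Bool × (V ⊕ ZMod m), inferInstance, sup G N R, fun v => (false, Sum.inl v), ?_, ?_, ?_, ?_⟩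
  · intro v w h
    simpa using h
  · intro v w h
    exact ⟨rfl, h⟩
  · rintro ⟨b, v | u⟩
    · have e : (nb (sup G N R) (b, Sum.inl v)).card = (nb G v).card + (N v).card := by
        rw [card_nb, Fintype.sum_prod_type]
        simp only [Fintype.sum_sum_type, Fintype.sum_bool]
        have : (N v).card = ∑ u, if u ∈ N v then 1 else 0 := by
          rw [← card_filter]
          congr 1
          ext u
          simp
        rw [this, card_nb]
        cases b <;> simp [sup]
      rw [e, hN v (mem_univ _)]
      have := hG v
      omega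
    · have e : (nb (sup G N R) (b, Sum.inr u)).card = d := by
        rw [card_nb, Fintype.sum_prod_type]
        simp only [Fintype.sum_sum_type, Fintype.sum_bool]
        cases b
        · rw [← ha u, ← hR1 u, hLd]
          simp only [card_filter]
          simp [sup, add_comm]
        · rw [← ha u, ← hR2 u, hLd]
          simp only [card_filter]
          simp [sup, add_comm]
      exact e
  · simp only [Fintype.card_prod, Fintype.card_bool, Fintype.card_sum, hmc]
    omega

end Pool.Agent.Work.MP_db9399_da.helper93
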