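import Pool.Agent.Work.MP_db9399_da_helper72.Stm4

/-!
# MP_db9399, DENSE-ALL: signed degree sums and degrees after stage A (helper93)
-/

set_option autoImplicit false

namespace Pool.Agent.Work.MP_db9399_da_helper93

open Finset Classical
open Pool.Agent.Work.MP_db9399_da_helper72
open Pool.Agent.Work.MP_db9399_lt (us)
open Pool.Agent.Work.MP_db9399_da (sgp qtr)

universe u

variable {V : Type u} [Fintype V]

/-- common hypotheses of `sgs`, `hid`, `dgU` -/
structure SG (G : SimpleGraph V) (d D : ℕ) (sd pt : V → Bool) (Q : Bool → Finset ℕ)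
    (P2 : Finset ℕ) (F : V → Finset ℕ) (W : ℕ → Finset V) : Prop where
  deg : ∀ v, dg G v univ + (F v).card = D
  Flt : ∀ v, F v ⊆ range (d + 2)
  FQ : ∀ v, Disjoint (F v) (Q (pt v))
  QQ : Disjoint (Q false) (Q true)
  QP : ∀ i, Disjoint (Q i) P2
  Qlt : ∀ i, Q i ⊆ range (d + 2)
  Plt : P2 ⊆ range (d + 2)
  eqs : ∀ i, (qt sd pt false i).card = (qt sd pt true i).card
  WF : ∀ b ∈ PP d Q P2, ∀ v ∈ W b, b ∉ F v

/-- the same with `W b ∩ us F b = ∅` -/
theorem SG.mk' {G : SimpleGraph V} {d D : ℕ} {sd pt : V → Bool} {Q : Bool → Finset ℕ}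
    {P2 : Finset ℕ} {F : V → Finset ℕ} {W : ℕ → Finset V}
    (deg : ∀ v, dg G v univ + (F v).card = D) (Flt : ∀ v, F v ⊆ range (d + 2))
    (FQ : ∀ v, Disjoint (F v) (Q (pt v))) (QQ : Disjoint (Q false) (Q true))
    (QP : ∀ i, Disjoint (Q i) P2) (Qlt : ∀ i, Q i ⊆ range (d + 2)) (Plt : P2 ⊆ range (d + 2))
    (eqs : ∀ i, (qt sd pt false i).card = (qt sd pt true i).card)
    (hW : ∀ b ∈ PP d Q P2, W b ∩ us F b = ∅) : SG G d D sd pt Q P2 F W := by
  refine ⟨deg, Flt, FQ, QQ, QP, Qlt, Plt, eqs, fun b hb v hv hF => ?_⟩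
  have h1 : v ∈ W b ∩ us F b := by
    rw [mem_inter]
    exact ⟨hv, by simp [us, hF]⟩
  rw [hW b hb] at h1
  exact notMem_empty v h1

theorem sum_sgv (sd pt : V → Bool) (i : Bool) (p : V → Prop) [DecidablePred p] :
    ∑ v ∈ univ.filter (fun v => pt v = i), sgv (sd v) * (if p v then 1 else 0 : ℤ) =
      ((univ.filter fun v => (sd v = false ∧ pt v = i) ∧ p v).card : ℤ) -
        ((univ.filter fun v => (sd v = true ∧ pt v = i) ∧ p v).card : ℤ) := by
  rw [card_filter, card_filter, sum_filter]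
  push_cast
  rw [← sum_sub_distrib]
  refine sum_congr rfl fun v _ => ?_
  unfold sgv
  by_cases h1 : pt v = i
  · cases h2 : sd v <;> by_cases h3 : p v <;> simp [h1, h3]
  · simp [h1]

/-- signed number of the pairs `(v, b)`, `b ∈ S v ∩ B`, in the part `i` -/
theorem sum_sgp (sd pt : V → Bool) (i : Bool) (S : V → Finset ℕ) (B : Finset ℕ) :
    ∑ v ∈ univ.filter (fun v => pt v = i), sgv (sd v) * ((S v ∩ B).card : ℤ) =
      ∑ b ∈ B, sgp S sd pt i b := by
  have h1 : ∀ v, ((S v ∩ B).card : ℤ) = ∑ b ∈ B, (if b ∈ S v then 1 else 0 : ℤ) := by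
    intro v
    rw [inter_comm, ← filter_mem_eq_inter, card_filter]
    push_cast
    rfl
  simp only [h1, mul_sum]
  rw [sum_comm]
  refine sum_congr rfl fun b _ => ?_
  rw [sum_sgv]
  unfold sgp qtr us
  congr 2 <;>
  · congr 1
    ext v
    simp only [mem_filter, mem_univ, true_and, mem_inter]

section main
variable {G : SimpleGraph V} {d D : ℕ} {sd pt : V → Bool} {Q : Bool → Finset ℕ}
  {P2 : Finset ℕ} {F : V → Finset ℕ} {W : ℕ → Finset V}

theorem PP_card (hQQ : Disjoint (Q false) (Q true)) (hQP : ∀ i, Disjoint (Q i) P2)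
    (hQlt : ∀ i, Q i ⊆ range (d + 2)) (hPlt : P2 ⊆ range (d + 2)) (i : Bool) :
    (PP d Q P2).card + (Q i).card + (P2 ∪ Q (!i)).card = d + 2 := by
  have h1 : Q false ∪ Q true ∪ P2 ⊆ range (d + 2) :=
    union_subset (union_subset (hQlt _) (hQlt _)) hPlt
  have h2 : (PP d Q P2).card + (Q false ∪ Q true ∪ P2).card = d + 2 := by
    unfold PP
    rw [card_sdiff_add_card_eq_card h1, card_range]
  have h3 : (Q false ∪ Q true ∪ P2).card = (Q i).card + (P2 ∪ Q (!i)).card := by
    rw [← card_union_of_disjoint]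
    · congr 1
      cases i
      · ext b
        simp only [mem_union, Bool.not_false]
        tauto
      · ext b
        simp only [mem_union, Bool.not_true]
        tauto
    · rw [disjoint_union_right]
      refine ⟨hQP i, ?_⟩
      cases i
      · exact hQQ
      · exact hQQ.symm
  omega

/-- the pointwise identity -/
theorem deg_id (h : SG G d D sd pt Q P2 F W) (v : V) :
    (dg G v univ : ℤ) - (BB d Q P2 F W v).card = (D : ℤ) - (PP d Q P2).card -
      ((F v ∩ (P2 ∪ Q (!(pt v)))).card : ℤ) +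
      (((PP d Q P2).filter fun b => v ∈ W b).card : ℤ) := by
  have h1 : (PP d Q P2).card = (BB d Q P2 F W v).card + ((PP d Q P2) ∩ F v).card +
      ((PP d Q P2).filter fun b => v ∈ W b).card := by
    have e1 : PP d Q P2 = (BB d Q P2 F W v ∪ ((PP d Q P2) ∩ F v)) ∪
        ((PP d Q P2).filter fun b => v ∈ W b) := by
      ext b
      simp only [BB, mem_union, mem_filter, mem_inter]
      tauto
    have d1 : Disjoint (BB d Q P2 F W v) ((PP d Q P2) ∩ F v) := by
      rw [disjoint_left]
      intro b hb hb'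
      simp only [BB, mem_filter, mem_inter] at hb hb'
      exact hb.2.1 hb'.2
    have d2 : Disjoint (BB d Q P2 F W v ∪ ((PP d Q P2) ∩ F v))
        ((PP d Q P2).filter fun b => v ∈ W b) := by
      rw [disjoint_left]
      intro b hb hb'
      simp only [BB, mem_filter, mem_inter, mem_union] at hb hb'
      rcases hb with hb | hb
      · exact hb.2.2 hb'.2
      · exact h.WF b hb'.1 v hb'.2 hb.2
    conv_lhs => rw [e1]
    rw [card_union_of_disjoint d2, card_union_of_disjoint d1]
  have h2 : (F v).card = ((PP d Q P2) ∩ F v).card + (F v ∩ (P2 ∪ Q (!(pt v)))).card := by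
    rw [← card_union_of_disjoint]
    · congr 1
      ext b
      simp only [PP, mem_union, mem_inter, mem_sdiff]
      constructor
      · intro hb
        have hlt := h.Flt v hb
        have hnQ : b ∉ Q (pt v) := disjoint_left.1 (h.FQ v) hb
        by_cases hP : b ∈ P2
        · exact Or.inr ⟨hb, Or.inl hP⟩
        · by_cases hQ : b ∈ Q (!(pt v))
          · exact Or.inr ⟨hb, Or.inr hQ⟩
          · left
            refine ⟨⟨hlt, ?_⟩, hb⟩
            rintro ((hh | hh) | hh)
            · cases hp : pt v <;> rw [hp] at hnQ hQ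
              · exact hnQ hh
              · exact hQ hh
            · cases hp : pt v <;> rw [hp] at hnQ hQ
              · exact hQ hh
              · exact hnQ hh
            · exact hP hh
      · rintro (hb | hb)
        · exact hb.2
        · exact hb.1
    · rw [disjoint_left]
      intro b hb hb'
      simp only [PP, mem_union, mem_inter, mem_sdiff] at hb hb'
      apply hb.1.2
      rcases hb'.2 with hh | hh
      · exact Or.inr hh
      · left
        cases hp : pt v <;> rw [hp] at hh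
        · exact Or.inr hh
        · exact Or.inl hh
  have h3 := h.deg v
  omega

/-- (1) -/
theorem sgs (h : SG G d D sd pt Q P2 F W) (i : Bool) :
    ∑ v ∈ univ.filter (fun v => pt v = i), sgv (sd v) *
        ((dg G v univ : ℤ) - (BB d Q P2 F W v).card) =
      - ∑ b ∈ P2 ∪ Q (!i), sgp F sd pt i b +
        ∑ v ∈ univ.filter (fun v => pt v = i), sgv (sd v) *
          (((PP d Q P2).filter fun b => v ∈ W b).card : ℤ) := by
  have h1 : ∀ v ∈ univ.filter (fun v => pt v = i), sgv (sd v) *
        ((dg G v univ : ℤ) - (BB d Q P2 F W v).card) =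
      sgv (sd v) * (if True then 1 else 0 : ℤ) * ((D : ℤ) - (PP d Q P2).card) -
        sgv (sd v) * ((F v ∩ (P2 ∪ Q (!i))).card : ℤ) +
        sgv (sd v) * (((PP d Q P2).filter fun b => v ∈ W b).card : ℤ) := by
    intro v hv
    rw [mem_filter] at hv
    rw [deg_id h v, hv.2]
    simp only [if_true]
    ring
  rw [sum_congr rfl h1, sum_add_distrib, sum_sub_distrib, ← sum_mul, sum_sgp, sum_sgv]
  have h2 : ((univ.filter fun v => (sd v = false ∧ pt v = i) ∧ True).card : ℤ) -
      ((univ.filter fun v => (sd v = true ∧ pt v = i) ∧ True).card : ℤ) = 0 := by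
    have h3 := h.eqs i
    unfold qt at h3
    simp only [and_true]
    rw [h3]
    ring
  rw [h2]
  ring

variable {U : SimpleGraph V} {L : V → Finset ℕ} {t : V → V → ℕ}

theorem dgU_aux (_h : SG G d D sd pt Q P2 F W)
    (hC : Col G U (fun v => BB d Q P2 F W v ∪ L v) t) (hLP : ∀ v, L v ⊆ P2) (v : V) :
    (dg U v univ : ℤ) = ((dg G v univ : ℤ) - (BB d Q P2 F W v).card) - ((L v).card : ℤ) := by
  have h1 := hC.card v
  have h2 : (BB d Q P2 F W v ∪ L v).card = (BB d Q P2 F W v).card + (L v).card := by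
    rw [card_union_of_disjoint]
    rw [disjoint_left]
    intro b hb hb'
    simp only [BB, PP, mem_filter, mem_sdiff, mem_union] at hb
    exact hb.1.2 (Or.inr (hLP v hb'))
  simp only [h2] at h1
  omega

theorem sgp_union (hLF : ∀ v, Disjoint (L v) (F v)) (i : Bool) (b : ℕ) :
    sgp (fun v => F v ∪ L v) sd pt i b = sgp F sd pt i b + sgp L sd pt i b := by
  have h1 : ∀ β, (qtr sd pt β i ∩ us (fun v => F v ∪ L v) b).card =
      (qtr sd pt β i ∩ us F b).card + (qtr sd pt β i ∩ us L b).card := by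
    intro β
    rw [← card_union_of_disjoint]
    · congr 1
      ext v
      simp only [us, mem_inter, mem_filter, mem_univ, true_and, mem_union]
      tauto
    · rw [disjoint_left]
      intro v hv hv'
      simp only [us, mem_inter, mem_filter, mem_univ, true_and] at hv hv'
      exact disjoint_left.1 (hLF v) hv'.2 hv.2
  unfold sgp
  rw [h1, h1]
  push_cast
  ring

theorem qq_sgp (F2 : V → Finset ℕ) (heq : ∀ i, (qt sd pt false i).card = (qt sd pt true i).card)
    (i : Bool) (b : ℕ) : qq F2 sd pt i b = - sgp F2 sd pt i b := by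
  unfold qq sgp
  have h1 : ∀ β, (qtr sd pt β i \ us F2 b).card + (qtr sd pt β i ∩ us F2 b).card =
      (qtr sd pt β i).card := fun β => card_sdiff_add_card_inter _ _
  have h2 := h1 false
  have h3 := h1 true
  have h4 : (qtr sd pt false i).card = (qtr sd pt true i).card := heq i
  omega

/-- (2) -/
theorem hid (h : SG G d D sd pt Q P2 F W)
    (hC : Col G U (fun v => BB d Q P2 F W v ∪ L v) t)
    (hU : ∀ v w, U.Adj v w → sd v ≠ sd w ∧ pt v = pt w) (hLP : ∀ v, L v ⊆ P2)
    (hLF : ∀ v, Disjoint (L v) (F v)) (i : Bool) :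
    ∑ v ∈ univ.filter (fun v => pt v = i), sgv (sd v) *
        (((PP d Q P2).filter fun b => v ∈ W b).card : ℤ) =
      - ∑ b ∈ P2 ∪ Q (!i), qq (fun v => F v ∪ L v) sd pt i b := by
  have h1 := sum_crs_zero U sd pt hU i
  have h2 : ∀ v ∈ univ.filter (fun v => pt v = i), sgv (sd v) * (dg U v univ : ℤ) =
      sgv (sd v) * ((dg G v univ : ℤ) - (BB d Q P2 F W v).card) -
        sgv (sd v) * ((L v ∩ (P2 ∪ Q (!i))).card : ℤ) := by
    intro v _
    rw [dgU_aux h hC hLP v]
    have : L v ∩ (P2 ∪ Q (!i)) = L v :=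
      inter_eq_left.2 ((hLP v).trans subset_union_left)
    rw [this]
    ring
  rw [sum_congr rfl h2, sum_sub_distrib, sgs h i, sum_sgp] at h1
  have h3 : ∀ b ∈ P2 ∪ Q (!i), qq (fun v => F v ∪ L v) sd pt i b =
      - sgp F sd pt i b - sgp L sd pt i b := by
    intro b _
    rw [qq_sgp _ h.eqs, sgp_union hLF]
    ring
  rw [sum_congr rfl h3, sum_sub_distrib, sum_neg_distrib]
  linarith

/-- (3) -/
theorem dgU (h : SG G d D sd pt Q P2 F W)
    (hC : Col G U (fun v => BB d Q P2 F W v ∪ L v) t) (hLP : ∀ v, L v ⊆ P2)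
    (hLF : ∀ v, Disjoint (L v) (F v)) (v : V) :
    dg U v univ + ((F v ∪ L v) ∩ (P2 ∪ Q (!(pt v)))).card + (d + 2) =
      D + (Q (pt v)).card + (P2 ∪ Q (!(pt v))).card +
        ((PP d Q P2).filter fun b => v ∈ W b).card := by
  have h1 := dgU_aux h hC hLP v
  rw [deg_id h v] at h1
  have h2 := PP_card h.QQ h.QP h.Qlt h.Plt (pt v)
  have h3 : ((F v ∪ L v) ∩ (P2 ∪ Q (!(pt v)))).card =
      (F v ∩ (P2 ∪ Q (!(pt v)))).card + (L v).card := by
    rw [union_inter_distrib_right, card_union_of_disjoint]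
    · congr 2
      exact inter_eq_left.2 ((hLP v).trans subset_union_left)
    · rw [disjoint_left]
      intro b hb hb'
      rw [mem_inter] at hb hb'
      exact disjoint_left.1 (hLF v) hb'.1 hb.1
  omega

end main

end Pool.Agent.Work.MP_db9399_da_helper93
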