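import Pool.Agent.Work.MP_db9399_da_helper93.RN

/-!
# MP_db9399, DENSE-ALL: RB, rounds in a bipartite graph (helper93)
-/

set_option autoImplicit false

namespace Pool.Agent.Work.MP_db9399_da_helper93

open Finset Classical
open Pool.Agent.Work.MP_db9399_da_helper72

universe u

theorem ee_le (V : Type u) [Fintype V] (H : SimpleGraph V) {A B A1 B1 : Finset V}
    (h : ∀ a ∈ A, ∀ b ∈ B, H.Adj a b → a ∈ A1 ∧ b ∈ B1) : ee H A B ≤ ee H A1 B1 := by
  unfold ee
  refine card_le_card ?_
  rintro ⟨a, b⟩ hp
  simp only [mem_filter, mem_product] at hp ⊢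
  exact ⟨h a hp.1.1 b hp.1.2 hp.2, hp.2⟩

/-- equally many fixed points outside `D` on both sides -/
theorem fix_sides {V : Type u} [Fintype V] (sd : V → Bool) (D : Finset V) (f : V → V)
    (h1 : ∀ v, f (f v) = v) (h2 : ∀ v ∈ D, f v = v) (h3 : ∀ v, f v ≠ v → sd v ≠ sd (f v))
    (hD : ((univ.filter fun v => sd v = false) \ D).card =
      ((univ.filter fun v => sd v = true) \ D).card) :
    (((univ.filter fun v => sd v = false) \ D).filter fun v => f v = v).card =
      (((univ.filter fun v => sd v = true) \ D).filter fun v => f v = v).card := by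
  have hmem : ∀ w, w ∉ D → f w ∉ D := by
    intro w hw h
    have h3 := h2 _ h
    rw [h1] at h3
    rw [← h3] at h
    exact hw h
  have h4 : (((univ.filter fun v => sd v = false) \ D).filter fun v => ¬ f v = v).card =
      (((univ.filter fun v => sd v = true) \ D).filter fun v => ¬ f v = v).card := by
    refine card_bij (fun v _ => f v) ?_ ?_ ?_
    · intro v hv
      simp only [mem_filter, mem_sdiff, mem_univ, true_and] at hv ⊢
      have h5 := h3 v hv.2
      refine ⟨⟨?_, hmem v hv.1.2⟩, ?_⟩
      · rw [hv.1.1] at h5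
        cases h : sd (f v)
        · exact absurd h.symm h5
        · rfl
      · rw [h1]
        exact fun h => hv.2 h.symm
    · intro v _ w _ h
      rw [← h1 v, ← h1 w, h]
    · intro w hw
      refine ⟨f w, ?_, h1 w⟩
      simp only [mem_filter, mem_sdiff, mem_univ, true_and] at hw ⊢
      have h5 := h3 w hw.2
      refine ⟨⟨?_, hmem w hw.1.2⟩, ?_⟩
      · rw [hw.1.1] at h5
        cases h : sd (f w)
        · rfl
        · exact absurd h.symm h5
      · rw [h1]
        exact fun h => hw.2 h.symm
  have h5 := card_filter_add_card_filter_not (s := (univ.filter fun v => sd v = false) \ D)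
    (fun v => f v = v)
  have h6 := card_filter_add_card_filter_not (s := (univ.filter fun v => sd v = true) \ D)
    (fun v => f v = v)
  omega

/-- RB -/
theorem stmt_RB (hPerm : Stmt_PERM.{u}) : Stmt_RB.{u} := by
  intro C ρ r ν1 hC hρ hr hr1 hν1
  obtain ⟨γ, τ, ν, hγ, hγ1, hγC, hτ, hτγ, hτρ, hν, hνγ, hνν, hνc⟩ := consts C ρ r ν1 hC hρ hr hr1 hν1
  obtain ⟨ε0, m0, hε0, hmain⟩ := ro_of hPerm γ ν hγ hγ1 hν hνγ
  refine ⟨min (min ε0 ν) (γ / 4), m0 + 1, lt_min (lt_min hε0 hν) (by positivity), ?_⟩
  set ε := min (min ε0 ν) (γ / 4) with hεd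
  have hε : 0 < ε := lt_min (lt_min hε0 hν) (by positivity)
  have hε1 : ε ≤ ε0 := (min_le_left _ _).trans (min_le_left _ _)
  have hε2 : ε ≤ ν := (min_le_left _ _).trans (min_le_right _ _)
  have hε3 : ε ≤ γ / 4 := min_le_right _ _
  intro V _ G sd D0 hm hsize hbip hreg hcut
  have hm' : 0 < Fintype.card V := by omega
  have hmR : (0 : ℝ) < Fintype.card V := by exact_mod_cast hm'
  refine hmain r ν1 ε hr hνν hε hε1 V G (univ.filter fun v => sd v = false) _ (by omega)
    (degs G C D0 r γ ε hC hr hr1 hγC hε hε3 hsize hreg) ?_ ?_ ?_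
  · intro O hO I hO1 hI hE
    obtain ⟨I', hI'⟩ : ∃ I' : Finset V, I' = I.filter fun v => sd v = true := ⟨_, rfl⟩
    have hOX : ∀ v ∈ O, sd v = false := fun v hv => (mem_filter.1 (hO hv)).2
    have hI1 : (I'.card : ℝ) ≤ O.card + ν * Fintype.card V := by
      refine le_trans ?_ hI
      rw [hI']
      exact_mod_cast card_filter_le _ _
    have hE1 : (ee G O I'ᶜ : ℝ) ≤ (ν + ε) / r * (Fintype.card V : ℝ) ^ 2 := by
      refine le_trans ?_ hE
      have : ee G O I'ᶜ ≤ ee G O Iᶜ := by
        refine ee_le V G fun a ha b hb hab => ⟨ha, ?_⟩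
        rw [mem_compl] at hb ⊢
        intro hbI
        apply hb
        rw [hI', mem_filter]
        refine ⟨hbI, ?_⟩
        have h1 := hbip a b hab
        rw [hOX a ha] at h1
        cases h : sd b
        · exact absurd h.symm h1
        · rfl
      exact_mod_cast this
    have hlv := leave G D0 ρ r τ ν ε hr hr1 hν hε hε2 (by linarith) hνc hm' hreg O I' hI1 hE1
    have hK : (ee G (O ∪ I') (O ∪ I')ᶜ : ℝ) ≤ ρ * τ ^ 2 * (Fintype.card V : ℝ) ^ 2 := by
      refine le_trans ?_ hlv
      have : ee G (O ∪ I') (O ∪ I')ᶜ ≤ ee G O I'ᶜ + ee G I' Oᶜ := by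
        refine ee_le_add G fun a ha b hb _ => ?_
        rw [mem_union] at ha
        rw [mem_compl, mem_union, not_or] at hb
        rcases ha with ha | ha
        · exact Or.inl ⟨ha, mem_compl.2 hb.2⟩
        · exact Or.inr ⟨ha, mem_compl.2 hb.1⟩
      exact_mod_cast this
    have hτm : τ * Fintype.card V < γ / 4 * Fintype.card V :=
      mul_lt_mul_of_pos_right (by linarith) hmR
    rcases small_or G ρ τ hρ hτ hm' hcut _ hK with h1 | h1
    · exfalso
      have h3 : (O.card : ℝ) ≤ (O ∪ I').card := by
        exact_mod_cast card_le_card subset_union_left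
      linarith
    · have h2 : (((univ.filter fun v => sd v = false) \ O : Finset V).card : ℝ) ≤
          ((O ∪ I')ᶜ.card : ℝ) := by
        have : ((univ.filter fun v => sd v = false) \ O : Finset V) ⊆ (O ∪ I')ᶜ := by
          intro v hv
          rw [mem_sdiff, mem_filter] at hv
          rw [mem_compl, mem_union, not_or]
          refine ⟨hv.2, fun h => ?_⟩
          rw [hI', mem_filter, hv.1.2] at h
          exact Bool.false_ne_true h.2
        exact_mod_cast card_le_card this
      linarith
  · intro v hv y hvy z hyz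
    rw [mem_filter] at hv ⊢
    refine ⟨mem_univ _, ?_⟩
    have h1 := hbip v y hvy
    have h2 := hbip y z hyz
    rw [hv.2] at h1
    cases hy : sd y
    · exact absurd hy.symm h1
    · rw [hy] at h2
      cases hz : sd z
      · rfl
      · exact absurd hz.symm h2
  · rintro D f hD h1 h2 h3 ⟨v, hv, hfv⟩
    have h4 := fix_sides sd D f h1 h2 (fun v hv => hbip _ _ (h3 v hv)) hD
    have h5 : 0 < (((univ.filter fun v => sd v = false) \ D).filter fun v => f v = v).card ∨
        0 < (((univ.filter fun v => sd v = true) \ D).filter fun v => f v = v).card := by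
      cases h : sd v
      · left
        rw [card_pos]
        exact ⟨v, mem_filter.2 ⟨mem_sdiff.2 ⟨mem_filter.2 ⟨mem_univ _, h⟩, hv⟩, hfv⟩⟩
      · right
        rw [card_pos]
        exact ⟨v, mem_filter.2 ⟨mem_sdiff.2 ⟨mem_filter.2 ⟨mem_univ _, h⟩, hv⟩, hfv⟩⟩
    have h6 : 0 < (((univ.filter fun v => sd v = false) \ D).filter fun v => f v = v).card := by
      omega
    have h7 : 0 < (((univ.filter fun v => sd v = true) \ D).filter fun v => f v = v).card := by
      omega
    rw [card_pos] at h6 h7
    obtain ⟨s, hs⟩ := h6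
    obtain ⟨t, ht⟩ := h7
    simp only [mem_filter, mem_sdiff, mem_univ, true_and] at hs ht
    refine ⟨s, t, ?_, hs.1.2, ht.1.2, hs.2, ht.2, ?_, ?_⟩
    · intro h
      have h8 := hs.1.1
      rw [h, ht.1.1] at h8
      exact Bool.noConfusion h8
    · rw [mem_filter]
      exact ⟨mem_univ _, hs.1.1⟩
    · intro y hy
      rw [mem_filter]
      refine ⟨mem_univ _, ?_⟩
      have h8 := hbip y t hy
      rw [ht.1.1] at h8
      cases h : sd y
      · rfl
      · exact absurd h h8

end Pool.Agent.Work.MP_db9399_da_helper93
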