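import Pool.Agent.Work.MP_db9399_da_helper93.Ro

/-!
# MP_db9399, DENSE-ALL: RN, rounds in a piece of type N (helper93)
-/

set_option autoImplicit false

namespace Pool.Agent.Work.MP_db9399_da_helper93

open Finset Classical
open Pool.Agent.Work.MP_db9399_da_helper72

universe u

/-- an involution on an even number of points with one fixed point has a second one -/
theorem two_fix {V : Type u} [Fintype V] (D : Finset V) (f : V → V) (h1 : ∀ v, f (f v) = v)
    (h2 : ∀ v ∈ D, f v = v) (hev : Even (Dᶜ).card) (v : V) (hv : v ∉ D) (hfv : f v = v) :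
    ∃ w, w ≠ v ∧ w ∉ D ∧ f w = w := by
  by_contra hcon
  push Not at hcon
  have hmem : ∀ w, w ∉ D → f w ∉ D := by
    intro w hw h
    have h3 := h2 _ h
    rw [h1] at h3
    rw [← h3] at h
    exact hw h
  have h3 : ∑ _w ∈ Dᶜ.erase v, (1 : ZMod 2) = 0 := by
    refine sum_involution (fun w _ => f w) ?_ ?_ ?_ ?_
    · intro w _
      decide
    · intro w hw _
      rw [mem_erase, mem_compl] at hw
      exact hcon w hw.1 hw.2
    · intro w hw
      rw [mem_erase, mem_compl] at hw ⊢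
      refine ⟨fun h => hw.1 ?_, hmem w hw.2⟩
      rw [← h1 w, h, hfv]
    · intro w _
      exact h1 w
  rw [sum_const, nsmul_eq_mul, mul_one, ZMod.natCast_eq_zero_iff_even] at h3
  have h4 : (Dᶜ.erase v).card + 1 = (Dᶜ).card := card_erase_add_one (mem_compl.2 hv)
  rw [← h4] at hev
  exact (Nat.even_add_one.1 hev) h3

/-- common constants of RN and RB -/
theorem consts (C ρ r ν : ℝ) (hC : 1 ≤ C) (hρ : 0 < ρ) (hr : 0 < r) (hr1 : r ≤ 1) (hν : 0 < ν) :
    ∃ γ τ ν' : ℝ, 0 < γ ∧ γ ≤ 1 ∧ γ * (2 * C) = r ∧ 0 < τ ∧ τ ≤ γ / 8 ∧ τ ≤ ρ / 8 ∧ 0 < ν' ∧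
      ν' ≤ γ / 16 ∧ ν' ≤ ν ∧ 8 * ν' / r ≤ ρ * τ ^ 2 := by
  have hC0 : 0 < C := by linarith
  have hγ : 0 < r / (2 * C) := by positivity
  have hτ : 0 < min (r / (2 * C) / 8) (ρ / 8) := lt_min (by positivity) (by positivity)
  refine ⟨r / (2 * C), min (r / (2 * C) / 8) (ρ / 8),
    min (min (r / (2 * C) / 16) ν) (ρ * (min (r / (2 * C) / 8) (ρ / 8)) ^ 2 * r / 8),
    hγ, ?_, ?_, hτ, min_le_left _ _, min_le_right _ _, ?_, ?_, ?_, ?_⟩
  · rw [div_le_one (by positivity)]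
    linarith
  · field_simp
  · exact lt_min (lt_min (by positivity) hν) (by positivity)
  · exact (min_le_left _ _).trans (min_le_left _ _)
  · exact (min_le_left _ _).trans (min_le_right _ _)
  · have h1 := min_le_right (min (r / (2 * C) / 16) ν)
      (ρ * (min (r / (2 * C) / 8) (ρ / 8)) ^ 2 * r / 8)
    rw [div_le_iff₀ hr]
    linarith

/-- the estimate behind the robustness -/
theorem leave {V : Type u} [Fintype V] (G : SimpleGraph V) (D0 ρ r τ ν ε : ℝ) (hr : 0 < r)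
    (hr1 : r ≤ 1) (hν : 0 < ν) (hε : 0 < ε) (hεν : ε ≤ ν) (hν2 : ν ≤ 1 / 2)
    (hc : 8 * ν / r ≤ ρ * τ ^ 2) (hm : 0 < Fintype.card V)
    (hreg : ∀ v, |(dg G v univ : ℝ) - D0| ≤ ε * Fintype.card V) (O I : Finset V)
    (hI : (I.card : ℝ) ≤ O.card + ν * Fintype.card V)
    (hO : (ee G O Iᶜ : ℝ) ≤ (ν + ε) / r * (Fintype.card V : ℝ) ^ 2) :
    (ee G O Iᶜ : ℝ) + ee G I Oᶜ ≤ ρ * τ ^ 2 * (Fintype.card V : ℝ) ^ 2 := by
  have h1 := back G D0 ε ν ((ν + ε) / r) hε.le (by linarith) hν.le hm hreg O I hI hO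
  have h2 : (ν + ε) / r ≤ 2 * ν / r := div_le_div_of_nonneg_right (by linarith) hr.le
  have h3 : 4 * ν ≤ 4 * ν / r := by
    rw [le_div_iff₀ hr]
    nlinarith
  have h4 : (ν + ε) / r + (2 * ν + 2 * ε + (ν + ε) / r) ≤ ρ * τ ^ 2 := by
    have : 8 * ν / r = 2 * (2 * ν / r) + 4 * ν / r := by ring
    linarith
  have h5 : ((ν + ε) / r + (2 * ν + 2 * ε + (ν + ε) / r)) * (Fintype.card V : ℝ) ^ 2 ≤
      ρ * τ ^ 2 * (Fintype.card V : ℝ) ^ 2 := mul_le_mul_of_nonneg_right h4 (by positivity)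
  linarith

/-- Degrees of the sample. -/
theorem degs {V : Type u} [Fintype V] (G : SimpleGraph V) (C D0 r γ ε : ℝ) (hC : 1 ≤ C)
    (hr : 0 < r) (hr1 : r ≤ 1) (hγ : γ * (2 * C) = r) (hε : 0 < ε) (hεγ : ε ≤ γ / 4)
    (hsize : (Fintype.card V : ℝ) ≤ C * D0)
    (hreg : ∀ v, |(dg G v univ : ℝ) - D0| ≤ ε * Fintype.card V) (v : V) :
    γ * Fintype.card V + ε * Fintype.card V ≤ r * (dg G v univ : ℝ) := by
  have hm0 : (0 : ℝ) ≤ Fintype.card V := Nat.cast_nonneg _
  have h1 := (abs_le.1 (hreg v)).1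
  have h2 : r * (D0 - ε * Fintype.card V) ≤ r * (dg G v univ : ℝ) :=
    mul_le_mul_of_nonneg_left (by linarith) hr.le
  have h3 : 2 * γ * Fintype.card V ≤ r * D0 := by
    have hγ0 : 0 ≤ γ := by nlinarith
    rw [← hγ]
    nlinarith
  have h4 : r * (ε * Fintype.card V) ≤ ε * Fintype.card V := by
    have : 0 ≤ ε * Fintype.card V := by positivity
    nlinarith
  have h5 : ε * Fintype.card V ≤ γ / 4 * Fintype.card V := mul_le_mul_of_nonneg_right hεγ hm0
  nlinarith

/-- RN -/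
theorem stmt_RN (hPerm : Stmt_PERM.{u}) : Stmt_RN.{u} := by
  intro C ρ r ν1 hC hρ hr hr1 hν1
  obtain ⟨γ, τ, ν, hγ, hγ1, hγC, hτ, hτγ, hτρ, hν, hνγ, hνν, hνc⟩ := consts C ρ r ν1 hC hρ hr hr1 hν1
  obtain ⟨ε0, m0, hε0, hmain⟩ := ro_of hPerm γ ν hγ hγ1 hν hνγ
  refine ⟨min (min ε0 ν) (γ / 4), m0 + 1, lt_min (lt_min hε0 hν) (by positivity), ?_⟩
  set ε := min (min ε0 ν) (γ / 4) with hεd
  have hε : 0 < ε := lt_min (lt_min hε0 hν) (by positivity)
  have hε1 : ε ≤ ε0 := (min_le_left _ _).trans (min_le_left _ _)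
  have hε2 : ε ≤ ν := (min_le_left _ _).trans (min_le_right _ _)
  have hε3 : ε ≤ γ / 4 := min_le_right _ _
  intro V _ G D0 hm hsize hreg hcut hnbi
  have hm' : 0 < Fintype.card V := by omega
  have hmR : (0 : ℝ) < Fintype.card V := by exact_mod_cast hm'
  refine hmain r ν1 ε hr hνν hε hε1 V G univ _ (by omega)
    (degs G C D0 r γ ε hC hr hr1 hγC hε hε3 hsize hreg) ?_ (fun _ _ _ _ z _ => mem_univ z) ?_
  · intro O _ I hO1 hI hE
    have hlv := leave G D0 ρ r τ ν ε hr hr1 hν hε hε2 (by linarith) hνc hm' hreg O I hI hE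
    -- the intersection
    have hJ : (ee G (O ∩ I) (O ∩ I)ᶜ : ℝ) ≤ ρ * τ ^ 2 * (Fintype.card V : ℝ) ^ 2 := by
      refine le_trans ?_ hlv
      have : ee G (O ∩ I) (O ∩ I)ᶜ ≤ ee G O Iᶜ + ee G I Oᶜ := by
        refine ee_le_add G fun a ha b hb _ => ?_
        rw [mem_inter] at ha
        rw [mem_compl, mem_inter, not_and_or] at hb
        rcases hb with hb | hb
        · exact Or.inr ⟨ha.2, mem_compl.2 hb⟩
        · exact Or.inl ⟨ha.1, mem_compl.2 hb⟩
      exact_mod_cast this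
    have hK : (ee G (O ∪ I) (O ∪ I)ᶜ : ℝ) ≤ ρ * τ ^ 2 * (Fintype.card V : ℝ) ^ 2 := by
      refine le_trans ?_ hlv
      have : ee G (O ∪ I) (O ∪ I)ᶜ ≤ ee G O Iᶜ + ee G I Oᶜ := by
        refine ee_le_add G fun a ha b hb _ => ?_
        rw [mem_union] at ha
        rw [mem_compl, mem_union, not_or] at hb
        rcases ha with ha | ha
        · exact Or.inl ⟨ha, mem_compl.2 hb.2⟩
        · exact Or.inr ⟨ha, mem_compl.2 hb.1⟩
      exact_mod_cast this
    have hτm : τ * Fintype.card V < γ / 4 * Fintype.card V :=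
      mul_lt_mul_of_pos_right (by linarith) hmR
    rcases small_or G ρ τ hρ hτ hm' hcut _ hJ with h1 | h1
    · exfalso
      rcases small_or G ρ τ hρ hτ hm' hcut _ hK with h2 | h2
      · have h3 : (O.card : ℝ) ≤ (O ∪ I).card := by
          exact_mod_cast card_le_card subset_union_left
        linarith
      · have h3 := hnbi O
        -- inside `O`
        have h4 : (ee G O O : ℝ) ≤ ee G O Iᶜ + τ * (Fintype.card V : ℝ) ^ 2 := by
          have h5 : ee G O O ≤ ee G O Iᶜ + ee G (O ∩ I) univ := by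
            rw [ee_comm G (O ∩ I) univ]
            refine ee_le_add G fun a ha b hb _ => ?_
            by_cases hbI : b ∈ I
            · exact Or.inr ⟨mem_univ _, mem_inter.2 ⟨hb, hbI⟩⟩
            · exact Or.inl ⟨ha, mem_compl.2 hbI⟩
          have h6 := ee_le_card G (O ∩ I) univ
          have h7 : ((O ∩ I).card : ℝ) * Fintype.card V ≤ τ * Fintype.card V * Fintype.card V :=
            mul_le_mul_of_nonneg_right h1 hmR.le
          have h8 : (ee G O O : ℝ) ≤ ee G O Iᶜ + ee G (O ∩ I) univ := by exact_mod_cast h5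
          have h9 : τ * (Fintype.card V : ℝ) * Fintype.card V = τ * (Fintype.card V : ℝ) ^ 2 := by ring
          linarith
        have h5 : (ee G Oᶜ Oᶜ : ℝ) ≤ ee G I Oᶜ + τ * (Fintype.card V : ℝ) ^ 2 := by
          have h5 : ee G Oᶜ Oᶜ ≤ ee G I Oᶜ + ee G (O ∪ I)ᶜ univ := by
            refine ee_le_add G fun a ha b hb _ => ?_
            rw [mem_compl] at ha
            by_cases haI : a ∈ I
            · exact Or.inl ⟨haI, hb⟩
            · refine Or.inr ⟨?_, mem_univ _⟩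
              rw [mem_compl, mem_union, not_or]
              exact ⟨ha, haI⟩
          have h6 := ee_le_card G (O ∪ I)ᶜ univ
          have h7 : ((O ∪ I)ᶜ.card : ℝ) * Fintype.card V ≤ τ * Fintype.card V * Fintype.card V :=
            mul_le_mul_of_nonneg_right h2 hmR.le
          have h8 : (ee G Oᶜ Oᶜ : ℝ) ≤ ee G I Oᶜ + ee G (O ∪ I)ᶜ univ := by exact_mod_cast h5
          have h9 : τ * (Fintype.card V : ℝ) * Fintype.card V = τ * (Fintype.card V : ℝ) ^ 2 := by ring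
          linarith
        have h6 : ρ * (Fintype.card V : ℝ) ^ 2 ≤
            (ρ * τ ^ 2 + 2 * τ) * (Fintype.card V : ℝ) ^ 2 := by
          rw [add_mul]
          linarith
        have h7 : ρ ≤ ρ * τ ^ 2 + 2 * τ := le_of_mul_le_mul_right h6 (by positivity)
        have h8 : τ ^ 2 ≤ 1 / 64 := by nlinarith
        nlinarith
    · have h2 : ((univ \ O : Finset V).card : ℝ) ≤ ((O ∩ I)ᶜ.card : ℝ) := by
        have : (univ \ O : Finset V) ⊆ (O ∩ I)ᶜ := by
          intro v hv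
          rw [mem_sdiff] at hv
          rw [mem_compl, mem_inter, not_and_or]
          exact Or.inl hv.2
        exact_mod_cast card_le_card this
      linarith
  · rintro D f hD h1 h2 - ⟨v, hv, hfv⟩
    obtain ⟨w, hwv, hwD, hfw⟩ := two_fix D f h1 h2 hD v hv hfv
    exact ⟨w, v, hwv, hwD, hv, hfw, hfv, mem_univ _, fun y _ => mem_univ y⟩

end Pool.Agent.Work.MP_db9399_da_helper93
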