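import Pool.Agent.Work.MP_db9399_da_helper93.SGS
import Pool.Agent.Work.MP_db9399_da_helper72.Stm5

/-!
# MP_db9399, DENSE-ALL: STB, stage B of LBN (helper93)
-/

set_option autoImplicit false

namespace Pool.Agent.Work.MP_db9399_da_helper93

open Finset Classical
open Pool.Agent.Work.MP_db9399_da_helper72

universe u

/-- the edges of `U` outside `Con2` and `N` -/
def rst {V : Type u} (U Con2 N : SimpleGraph V) : SimpleGraph V where
  Adj v w := U.Adj v w ∧ ¬ Con2.Adj v w ∧ ¬ N.Adj v w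
  symm := ⟨fun _ _ h => ⟨h.1.symm, fun h' => h.2.1 h'.symm, fun h' => h.2.2 h'.symm⟩⟩
  loopless := ⟨fun v h => U.loopless.irrefl v h.1⟩

theorem rst_adj {V : Type u} (U Con2 N : SimpleGraph V) (v w : V) :
    (rst U Con2 N).Adj v w ↔ U.Adj v w ∧ ¬ Con2.Adj v w ∧ ¬ N.Adj v w := Iff.rfl

theorem dg_rst {V : Type u} [Fintype V] (U Con2 N : SimpleGraph V)
    (hC : ∀ v w, Con2.Adj v w → U.Adj v w) (hN : ∀ v w, N.Adj v w → U.Adj v w ∧ ¬ Con2.Adj v w)
    (v : V) : dg (rst U Con2 N) v univ + dg Con2 v univ + dg N v univ = dg U v univ := by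
  unfold dg
  rw [← card_union_of_disjoint, ← card_union_of_disjoint]
  · congr 1
    ext w
    simp only [mem_union, mem_filter, mem_univ, true_and, rst_adj]
    constructor
    · rintro ((h | h) | h)
      · exact h.1
      · exact hC v w h
      · exact (hN v w h).1
    · intro h
      by_cases h1 : Con2.Adj v w
      · exact Or.inl (Or.inr h1)
      · by_cases h2 : N.Adj v w
        · exact Or.inr h2
        · exact Or.inl (Or.inl ⟨h, h1, h2⟩)
  · rw [disjoint_left]
    intro w hw hw'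
    simp only [mem_union, mem_filter, mem_univ, true_and, rst_adj] at hw hw'
    rcases hw with h | h
    · exact h.2.2 hw'
    · exact (hN v w hw').2 h
  · rw [disjoint_left]
    intro w hw hw'
    simp only [mem_filter, mem_univ, true_and, rst_adj] at hw hw'
    exact hw.2.1 hw'

/-- STB -/
theorem stmt_STB : Stmt_STB.{u} := by
  intro C σ π κ ε2 N2 hC hσ hπ hπ1 hκ hκ1 hN2 hε2
  obtain ⟨τ, hτd⟩ : ∃ τ : ℝ, τ = min 1 (ε2 * κ / 64) := ⟨_, rfl⟩
  have hτ0 : 0 < τ := by rw [hτd]; exact lt_min one_pos (by positivity)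
  have hτ1 : τ ≤ 1 := by rw [hτd]; exact min_le_left _ _
  have hτ2 : τ ≤ ε2 * κ / 64 := by rw [hτd]; exact min_le_right _ _
  have hC0 : 0 < C := by linarith
  refine ⟨τ, τ / C, τ, ⌈100 / (ε2 * κ)⌉₊, hτ0, hτ1, by positivity, hτ0, ?_⟩
  intro V _ G N0 U Con2 N d D s sd pt Q P2 F L W W2 Zs t hd hSI hSO hS2 hROP
  have hd1 : 100 ≤ ε2 * κ * d := by
    have h1 : 100 / (ε2 * κ) ≤ (d : ℝ) := (Nat.le_ceil _).trans (by exact_mod_cast hd)
    rw [div_le_iff₀ (by positivity)] at h1
    linarith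
  have hd0 : (0 : ℝ) < d := by
    by_contra h
    push Not at h
    have : (d : ℝ) = 0 := le_antisymm h (Nat.cast_nonneg _)
    rw [this] at hd1
    linarith
  have hm : (d : ℝ) + 2 ≤ Fintype.card V := by exact_mod_cast hSI.Vl
  have hmC : (Fintype.card V : ℝ) ≤ C * d := hSI.VC
  have hεκ : ε2 * κ ≤ ε2 / 100 := by
    have := mul_le_mul_of_nonneg_left hκ1 hε2.le
    linarith
  have hτε : τ ≤ ε2 / 64 := by
    have : ε2 * κ ≤ ε2 := by linarith
    linarith
  have hιm : τ / C * Fintype.card V ≤ τ * d := by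
    rw [div_mul_eq_mul_div, div_le_iff₀ hC0]
    have := mul_le_mul_of_nonneg_left hmC hτ0.le
    linarith
  have hτd' : τ * d ≤ ε2 * κ * d / 64 := by
    have := mul_le_mul_of_nonneg_right hτ2 hd0.le
    linarith
  have hεκd : ε2 * κ * d ≤ ε2 * d / 100 := by
    have := mul_le_mul_of_nonneg_right hεκ hd0.le
    linarith
  have hεd : ε2 * d ≤ ε2 * Fintype.card V := mul_le_mul_of_nonneg_left (by linarith) hε2.le
  have hN20 : (0 : ℝ) < N2 := by
    by_contra h
    push Not at h
    have : (N2 : ℝ) = 0 := le_antisymm h (Nat.cast_nonneg _)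
    rw [this] at hN2
    linarith
  have hN21 : (1 : ℝ) / N2 ≤ κ := by
    rw [div_le_iff₀ hN20]
    linarith
  have hN22 : (1 : ℝ) / N2 ≤ 1 := by linarith
  have hN23 : (0 : ℝ) ≤ 1 / N2 := by positivity
  have hSG : SG G d D sd pt Q P2 F W := ⟨hSI.deg, hS2.Flt, hS2.FQ, hSI.QQ, hSI.QP, hSI.Qlt,
    hSI.Plt, hS2.eqs, hS2.WF⟩
  -- degrees
  set X : ℝ := 1 / N2 * (d / σ) with hX
  have hX0 : 0 ≤ X := by
    rw [hX]
    rcases hσ with h | h <;> (rw [h]; positivity)
  have hX1 : X ≤ κ * d / 2 := by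
    rw [hX]
    have h1 : (d : ℝ) / σ ≤ d / 2 := by
      rcases hσ with h | h
      · rw [h]
      · rw [h]
        linarith
    have h2 : 1 / (N2 : ℝ) * (d / σ) ≤ κ * (d / 2) :=
      mul_le_mul hN21 h1 (by rcases hσ with h | h <;> (rw [h]; positivity)) hκ.le
    linarith
  have hQ2 : ∀ i, κ * d ≤ ((Q i).card : ℝ) := fun i => (hSI.Qc i).1
  have hcon : ∀ v, |(dg Con2 v univ : ℝ) - X| ≤ 2 * (τ * d) := by
    intro v
    have h1 := abs_le.1 (hSO.sad v)
    have h2 := abs_le.1 (hSI.crd v)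
    have h3 : 1 / (N2 : ℝ) * dg (crs G sd pt) v univ ≤ X + τ * d := by
      have h4 : 1 / (N2 : ℝ) * dg (crs G sd pt) v univ ≤ 1 / N2 * (d / σ + τ * d) :=
        mul_le_mul_of_nonneg_left (by linarith) hN23
      have h5 : 1 / (N2 : ℝ) * (τ * d) ≤ 1 * (τ * d) :=
        mul_le_mul_of_nonneg_right hN22 (by positivity)
      rw [mul_add] at h4
      rw [hX]
      linarith
    have h3' : X - τ * d ≤ 1 / (N2 : ℝ) * dg (crs G sd pt) v univ := by
      have h4 : 1 / (N2 : ℝ) * (d / σ - τ * d) ≤ 1 / N2 * dg (crs G sd pt) v univ :=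
        mul_le_mul_of_nonneg_left (by linarith) hN23
      have h5 : 1 / (N2 : ℝ) * (τ * d) ≤ 1 * (τ * d) :=
        mul_le_mul_of_nonneg_right hN22 (by positivity)
      rw [mul_sub] at h4
      rw [hX]
      linarith
    rw [abs_le]
    constructor <;> linarith
  set G1 := rst U Con2 N with hG1
  have hdg1 : ∀ v, ((P2 ∪ Q (!(pt v))).card : ℝ) + (Q (pt v)).card - X - (4 * (τ * d) + 3) ≤
      (dg G1 v univ : ℝ) ∧ (dg G1 v univ : ℝ) ≤
      ((P2 ∪ Q (!(pt v))).card : ℝ) + (Q (pt v)).card - X + 2 * (τ * d) := by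
    intro v
    have h1 := dg_rst U Con2 N (fun v w h => (hSO.CU v w h).1) hS2.NU v
    have h2 := dgU hSG hSO.col hSO.LP hSO.LF v
    have h3 := hS2.Nm v
    have h4 := hSI.W1 v
    have h5 := abs_le.1 (hcon v)
    have h6 : ((F v ∪ L v) ∩ (P2 ∪ Q (!(pt v)))).card ≤ (F v).card + (L v).card :=
      (card_le_card inter_subset_left).trans (card_union_le _ _)
    have h7 := hSI.Fx v
    have h8 := hSO.Lx v
    have h1' : (dg G1 v univ : ℝ) + dg Con2 v univ + dg N v univ = dg U v univ := by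
      exact_mod_cast h1
    have h2' : (dg U v univ : ℝ) + ((F v ∪ L v) ∩ (P2 ∪ Q (!(pt v)))).card + (d + 2) =
        D + (Q (pt v)).card + (P2 ∪ Q (!(pt v))).card +
          ((PP d Q P2).filter fun b => v ∈ W b).card := by exact_mod_cast h2
    have h3' : (dg N v univ : ℝ) ≤ 1 := by exact_mod_cast h3
    have h3'' : (0 : ℝ) ≤ dg N v univ := Nat.cast_nonneg _
    have h4' : (((PP d Q P2).filter fun b => v ∈ W b).card : ℝ) ≤ 1 := by exact_mod_cast h4
    have h4'' : (0 : ℝ) ≤ ((PP d Q P2).filter fun b => v ∈ W b).card := Nat.cast_nonneg _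
    have h6' : (((F v ∪ L v) ∩ (P2 ∪ Q (!(pt v)))).card : ℝ) ≤ (F v).card + (L v).card := by
      exact_mod_cast h6
    have h6'' : (0 : ℝ) ≤ ((F v ∪ L v) ∩ (P2 ∪ Q (!(pt v)))).card := Nat.cast_nonneg _
    have hD1 : (d : ℝ) ≤ D ∧ (D : ℝ) ≤ d + 1 := by
      rcases hSI.Dd with h | h
      · rw [h]; constructor <;> linarith
      · rw [h]; push_cast; constructor <;> linarith
    constructor <;> linarith [hD1.1, hD1.2, h5.1, h5.2]
  obtain ⟨η, hη⟩ : ∃ η : ℝ, η = 4 * (τ * d) + 3 := ⟨_, rfl⟩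
  have hη0 : 0 ≤ η := by rw [hη]; positivity
  have hηb : 2 * η + 3 ≤ ε2 * (κ * d / 2) := by
    rw [hη]
    linarith
  have hwnn : ∀ i, 0 ≤ ((Q i).card : ℝ) - X + η := by
    intro i
    have := hQ2 i
    have : 0 ≤ κ * d := by positivity
    linarith
  obtain ⟨w, hw⟩ : ∃ w : Bool → ℕ, ∀ i, w i = ⌊((Q i).card : ℝ) - X + η⌋₊ + 1 :=
    ⟨fun i => ⌊((Q i).card : ℝ) - X + η⌋₊ + 1, fun _ => rfl⟩
  have hw1 : ∀ i, ((Q i).card : ℝ) - X + η ≤ w i := by
    intro i
    rw [hw]
    push_cast
    exact (Nat.lt_floor_add_one _).le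
  have hw2 : ∀ i, (w i : ℝ) ≤ ((Q i).card : ℝ) - X + η + 1 := by
    intro i
    rw [hw]
    push_cast
    have := Nat.floor_le (hwnn i)
    linarith
  obtain ⟨e, he⟩ : ∃ e : ℕ, e = ⌈2 * η + 1⌉₊ := ⟨_, rfl⟩
  have he1 : 2 * η + 1 ≤ (e : ℝ) := by rw [he]; exact Nat.le_ceil _
  have he2 : (e : ℝ) + 1 ≤ 2 * η + 3 := by
    rw [he]
    have := Nat.ceil_lt_add_one (show 0 ≤ 2 * η + 1 by linarith)
    linarith
  obtain ⟨R', t2, hcol⟩ := hROP G1 Con2 (fun i => P2 ∪ Q (!i))
    (fun b => univ.filter fun v => b ∈ F v ∨ b ∈ L v ∨ v ∈ W2 b) w (fun _ => e)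
    (fun x y h => hSO.Uc _ _ (hSO.CU _ _ h).1)
    (fun x y h => ⟨hSO.Uc _ _ h.1, h.2.1⟩)
    (by
      intro A A'
      refine (hSO.sam A A').trans (mul_le_mul_of_nonneg_right ?_ (by positivity))
      have : τ / C ≤ τ := div_le_self hτ0.le hC
      linarith)
    (by
      intro v
      refine (hSO.sad v).trans ?_
      linarith)
    (by
      intro i
      have h1 : κ / C * Fintype.card V ≤ κ * d := by
        rw [div_mul_eq_mul_div, div_le_iff₀ hC0]
        have := mul_le_mul_of_nonneg_left hmC hκ.le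
        linarith
      have h2 : ((Q (!i)).card : ℝ) ≤ (P2 ∪ Q (!i)).card := by
        exact_mod_cast card_le_card subset_union_right
      exact h1.trans ((hQ2 _).trans h2))
    (by
      intro i
      have h1 : ((P2 ∪ Q (!i)).card : ℝ) ≤ P2.card + (Q (!i)).card := by
        exact_mod_cast card_union_le _ _
      have h2 := hSI.Pc.2
      have h3 := (hSI.Qc (!i)).2
      have h4 : π * d ≤ 1 / 100 * d := mul_le_mul_of_nonneg_right hπ1 hd0.le
      have h5 : κ * d ≤ 1 / 100 * d := mul_le_mul_of_nonneg_right hκ1 hd0.le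
      have h6 : 4 * ((P2 ∪ Q (!i)).card : ℝ) ≤ Fintype.card V := by linarith
      exact_mod_cast h6)
    (by
      intro v
      have h1 := (hdg1 v).2
      have h2 := hw1 (pt v)
      have h3 : (dg G1 v univ : ℝ) ≤ (P2 ∪ Q (!(pt v))).card + w (pt v) := by
        have : 2 * (τ * d) ≤ η := by
          rw [hη]
          have : 0 ≤ τ * d := by positivity
          linarith
        linarith
      exact_mod_cast h3)
    (by
      intro v
      have h1 := (hdg1 v).1
      have h2 := hw2 (pt v)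
      have h3 : ((P2 ∪ Q (!(pt v))).card : ℝ) + w (pt v) ≤ dg G1 v univ + e := by
        rw [← hη] at h1
        linarith
      exact_mod_cast h3)
    (by
      intro i
      refine he2.trans (hηb.trans ?_)
      refine mul_le_mul_of_nonneg_left ?_ hε2.le
      have h1 := hw1 i
      have h2 := hQ2 i
      linarith)
    (by
      intro i
      refine he2.trans (hηb.trans ?_)
      have : ε2 * (κ * d / 2) = ε2 * κ * d / 2 := by ring
      linarith)
    (by
      intro i b hb
      have h1 : ((univ.filter fun v => b ∈ F v ∨ b ∈ L v ∨ v ∈ W2 b) ∩ pr pt i).card ≤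
          (univ.filter fun v => b ∈ F v).card + (univ.filter fun v => b ∈ L v).card +
            (W2 b).card := by
        have h2 : ((univ.filter fun v => b ∈ F v ∨ b ∈ L v ∨ v ∈ W2 b) ∩ pr pt i) ⊆
            ((univ.filter fun v => b ∈ F v) ∪ (univ.filter fun v => b ∈ L v)) ∪ W2 b := by
          intro v hv
          simp only [mem_inter, mem_filter, mem_univ, true_and, mem_union] at hv ⊢
          tauto
        refine (card_le_card h2).trans ((card_union_le _ _).trans ?_)
        exact Nat.add_le_add_right (card_union_le _ _) _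
      have h2 : ((univ.filter fun v => b ∈ L v).card : ℝ) ≤ τ * d := by
        rcases mem_union.1 hb with hb | hb
        · exact hSO.Ll b hb
        · have h3 : (univ.filter fun v => b ∈ L v) = ∅ := by
            rw [filter_eq_empty_iff]
            intro v _ h4
            exact disjoint_left.1 (hSI.QP _) hb (hSO.LP v h4)
          rw [h3, card_empty]
          push_cast
          positivity
      have h3 := hSI.load b
      have h4 := hS2.Wc b
      have h5 : (((univ.filter fun v => b ∈ F v ∨ b ∈ L v ∨ v ∈ W2 b) ∩ pr pt i).card : ℝ) ≤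
          (univ.filter fun v => b ∈ F v).card + (univ.filter fun v => b ∈ L v).card +
            (W2 b).card := by exact_mod_cast h1
      linarith)
    (by
      intro v
      have h1 : ((P2 ∪ Q (!(pt v))).filter fun b => v ∈ univ.filter fun v =>
          b ∈ F v ∨ b ∈ L v ∨ v ∈ W2 b).card ≤ (F v).card + (L v).card +
          ((P2 ∪ Q (!(pt v))).filter fun b => v ∈ W2 b).card := by
        have h2 : ((P2 ∪ Q (!(pt v))).filter fun b => v ∈ univ.filter fun v =>
            b ∈ F v ∨ b ∈ L v ∨ v ∈ W2 b) ⊆ (F v ∪ L v) ∪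
            ((P2 ∪ Q (!(pt v))).filter fun b => v ∈ W2 b) := by
          intro b hb
          simp only [mem_filter, mem_univ, true_and, mem_union] at hb ⊢
          tauto
        refine (card_le_card h2).trans ((card_union_le _ _).trans ?_)
        exact Nat.add_le_add_right (card_union_le _ _) _
      have h2 := hSI.Fx v
      have h3 := hSO.Lx v
      have h4 := hS2.W1 v
      have h5 : (((P2 ∪ Q (!(pt v))).filter fun b => v ∈ univ.filter fun v =>
          b ∈ F v ∨ b ∈ L v ∨ v ∈ W2 b).card : ℝ) ≤ (F v).card + (L v).card +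
          ((P2 ∪ Q (!(pt v))).filter fun b => v ∈ W2 b).card := by exact_mod_cast h1
      have h6 : (((P2 ∪ Q (!(pt v))).filter fun b => v ∈ W2 b).card : ℝ) ≤ 1 := by
        exact_mod_cast h4
      linarith)
    (fun i b hb => hS2.bal i b hb)
  refine ⟨R' ⊔ N, t2, fun v w h => Or.inr h, ?_⟩
  have hB : (fun v => (P2 ∪ Q (!(pt v))).filter fun b =>
      v ∉ univ.filter fun v => b ∈ F v ∨ b ∈ L v ∨ v ∈ W2 b) = B2 Q P2 F L pt W2 := by
    funext v
    unfold B2
    apply filter_congr
    intro b _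
    simp only [mem_filter, mem_univ, true_and, not_or]
  rw [← hB]
  refine Col.ext hcol ?_ ?_ ?_
  · intro v w h
    rcases h with h | h
    · exact h.1
    · exact (hSO.CU v w h).1
  · intro v w h
    rcases h with h | h
    · rcases hcol.le v w h with h1 | h1
      · exact h1.1
      · exact (hSO.CU v w h1).1
    · exact (hS2.NU v w h).1
  · intro v w hU
    constructor
    · intro h
      have h1 : ¬ R'.Adj v w := fun h' => h (Or.inl h')
      have h2 : ¬ N.Adj v w := fun h' => h (Or.inr h')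
      refine ⟨?_, h1⟩
      by_cases h3 : Con2.Adj v w
      · exact Or.inr h3
      · exact Or.inl ⟨hU, h3, h2⟩
    · rintro ⟨h1, h2⟩ (h | h)
      · exact h2 h
      · rcases h1 with h1 | h1
        · exact h1.2.2 h
        · exact (hS2.NU v w h).2 h1

end Pool.Agent.Work.MP_db9399_da_helper93
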