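import Pool.Agent.Work.MP_db9399_da_helper72.Stm4

/-!
# MP_db9399, DENSE-ALL: OWC, own colours, greedy (helper93)
-/

set_option autoImplicit false

namespace Pool.Agent.Work.MP_db9399_da_helper93

open Finset Classical
open Pool.Agent.Work.MP_db9399_all (nb)
open Pool.Agent.Work.MP_db9399_da_helper72

universe u

theorem owc_aux (V : Type u) [Fintype V] (Th : SimpleGraph V) (pal A : V → Finset ℕ) (M0 : ℕ)
    (h : ∀ v (Fu : Finset ℕ), Fu.card * M0 ≤ Fintype.card V →
      (A v).card + (nb Th v).card + Fu.card < (pal v).card) (s : Finset V) :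
    ∃ c : V → ℕ, (∀ v ∈ s, c v ∈ pal v ∧ c v ∉ A v) ∧
      (∀ v ∈ s, ∀ w ∈ s, Th.Adj v w → c v ≠ c w) ∧
      ∀ b, (s.filter fun v => c v = b).card ≤ M0 + 1 := by
  induction s using Finset.induction_on with
  | empty => exact ⟨fun _ => 0, by simp, by simp, by simp⟩
  | insert v s hv ih =>
    obtain ⟨c, h1, h2, h3⟩ := ih
    set Fu : Finset ℕ := (pal v).filter fun b => M0 < (s.filter fun w => c w = b).card with hFu
    have hFc : Fu.card * M0 ≤ Fintype.card V := by
      calc Fu.card * M0 = ∑ _b ∈ Fu, M0 := by rw [sum_const, smul_eq_mul]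
        _ ≤ ∑ b ∈ Fu, (s.filter fun w => c w = b).card := by
            refine sum_le_sum fun b hb => ?_
            rw [hFu, mem_filter] at hb
            exact hb.2.le
        _ = (Fu.biUnion fun b => s.filter fun w => c w = b).card := by
            rw [card_biUnion]
            intro b _ b' _ hbb
            rw [Function.onFun, disjoint_left]
            intro w hw hw'
            rw [mem_filter] at hw hw'
            exact hbb (hw.2.symm.trans hw'.2)
        _ ≤ Fintype.card V := card_le_univ _
    have hlt := h v Fu hFc
    have hex : ∃ b ∈ pal v, b ∉ A v ∪ (nb Th v).image c ∪ Fu := by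
      by_contra hcon
      push Not at hcon
      have h4 : (pal v).card ≤ (A v ∪ (nb Th v).image c ∪ Fu).card := card_le_card hcon
      have h5 := card_union_le (A v ∪ (nb Th v).image c) Fu
      have h6 := card_union_le (A v) ((nb Th v).image c)
      have h7 : ((nb Th v).image c).card ≤ (nb Th v).card := card_image_le
      omega
    obtain ⟨b, hb, hb'⟩ := hex
    simp only [mem_union, not_or] at hb'
    obtain ⟨⟨hbA, hbT⟩, hbF⟩ := hb'
    have hbF' : (s.filter fun w => c w = b).card ≤ M0 := by
      by_contra hcon
      push Not at hcon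
      exact hbF (by rw [hFu, mem_filter]; exact ⟨hb, hcon⟩)
    have hne : ∀ w ∈ s, w ≠ v := fun w hw he => hv (he ▸ hw)
    refine ⟨Function.update c v b, ?_, ?_, ?_⟩
    · intro w hw
      rcases mem_insert.1 hw with rfl | hw
      · rw [Function.update_self]
        exact ⟨hb, hbA⟩
      · rw [Function.update_of_ne (hne w hw)]
        exact h1 w hw
    · intro w hw x hx hwx
      rcases mem_insert.1 hw with hwv | hw'
      · rcases mem_insert.1 hx with hxv | hx'
        · rw [hwv, hxv] at hwx
          exact absurd hwx (Th.loopless.irrefl _)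
        · rw [hwv] at hwx ⊢
          rw [Function.update_self, Function.update_of_ne (hne x hx')]
          intro he
          apply hbT
          rw [mem_image]
          exact ⟨x, by simp [nb, hwx], he.symm⟩
      · rcases mem_insert.1 hx with hxv | hx'
        · rw [hxv] at hwx ⊢
          rw [Function.update_self, Function.update_of_ne (hne w hw')]
          intro he
          apply hbT
          rw [mem_image]
          exact ⟨w, by simp [nb, hwx.symm], he⟩
        · rw [Function.update_of_ne (hne w hw'), Function.update_of_ne (hne x hx')]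
          exact h2 w hw' x hx' hwx
    · intro b'
      have e1 : (s.filter fun w => Function.update c v b w = b') = s.filter fun w => c w = b' := by
        apply filter_congr
        intro w hw
        rw [Function.update_of_ne (hne w hw)]
      rw [filter_insert, e1, Function.update_self]
      split_ifs with he
      · subst he
        refine (card_insert_le _ _).trans ?_
        omega
      · exact h3 b'

/-- OWC -/
theorem stmt_OWC : Stmt_OWC.{u} := by
  intro C κ hC hκ
  obtain ⟨M0, hM0⟩ : ∃ M0 : ℕ, M0 = ⌈4 * C / κ⌉₊ := ⟨_, rfl⟩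
  have hM1 : 4 * C / κ ≤ (M0 : ℝ) := by rw [hM0]; exact Nat.le_ceil _
  have hM2 : 4 * C ≤ κ * M0 := by
    rw [div_le_iff₀ hκ] at hM1
    linarith
  refine ⟨M0 + 1, κ / 4, 1, by positivity, ?_⟩
  intro V _ Th d pal A hd hV hp hA hT
  have hd0 : (0 : ℝ) < d := by exact_mod_cast hd
  obtain ⟨c, h1, h2, h3⟩ := owc_aux V Th pal A M0 (by
    intro v Fu hFu
    have h4 : (Fu.card : ℝ) * M0 ≤ C * d := by
      refine le_trans ?_ hV
      exact_mod_cast hFu
    have h5 : (Fu.card : ℝ) * (4 * C) ≤ Fu.card * (κ * M0) :=
      mul_le_mul_of_nonneg_left hM2 (Nat.cast_nonneg _)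
    have h6 : C * (4 * (Fu.card : ℝ)) ≤ C * (κ * d) := by nlinarith
    have h7 : 4 * (Fu.card : ℝ) ≤ κ * d := le_of_mul_le_mul_left h6 (by linarith)
    have h8 := hp v
    have h9 := hA v
    have h10 := hT v
    have h11 : 0 < κ * d := by positivity
    have h12 : ((A v).card : ℝ) + (nb Th v).card + Fu.card < (pal v).card := by linarith
    exact_mod_cast h12) univ
  exact ⟨c, fun v => h1 v (mem_univ _), fun v w => h2 v (mem_univ _) w (mem_univ _), h3⟩

end Pool.Agent.Work.MP_db9399_da_helper93
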