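import Pool.Agent.Work.MP_db9399_da_helper72.Rnd
import Pool.Agent.Work.MP_db9399_da_helper72.Rounds

/-!
# MP_db9399, DENSE-ALL: common part of RN and RB (helper93)

Edge counts between sets in an almost regular graph with a cut condition, and the translation of the
involutions of `rounds` into an edge colouring.
-/

set_option autoImplicit false

namespace Pool.Agent.Work.MP_db9399_da_helper93

open Finset Classical
open Pool.Agent.Work.MP_db9399_da_helper72

universe u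

section ee
variable {V : Type u} [Fintype V]

theorem ee_mono (H : SimpleGraph V) {A A' B B' : Finset V} (hA : A ⊆ A') (hB : B ⊆ B') :
    ee H A B ≤ ee H A' B' := by
  unfold ee
  exact card_le_card (filter_subset_filter _ (product_subset_product hA hB))

theorem ee_le_add (H : SimpleGraph V) {A B A1 B1 A2 B2 : Finset V}
    (h : ∀ a ∈ A, ∀ b ∈ B, H.Adj a b → (a ∈ A1 ∧ b ∈ B1) ∨ (a ∈ A2 ∧ b ∈ B2)) :
    ee H A B ≤ ee H A1 B1 + ee H A2 B2 := by
  unfold ee
  refine (card_le_card ?_).trans (card_union_le _ _)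
  rintro ⟨a, b⟩ hp
  simp only [mem_filter, mem_product, mem_union] at hp ⊢
  rcases h a hp.1.1 b hp.1.2 hp.2 with h1 | h1
  · exact Or.inl ⟨h1, hp.2⟩
  · exact Or.inr ⟨h1, hp.2⟩

theorem ee_comm (H : SimpleGraph V) (A B : Finset V) : ee H A B = ee H B A := by
  unfold ee
  refine card_bij (fun p _ => (p.2, p.1)) ?_ ?_ ?_
  · rintro ⟨a, b⟩ hp
    simp only [mem_filter, mem_product] at hp ⊢
    exact ⟨⟨hp.1.2, hp.1.1⟩, hp.2.symm⟩
  · rintro ⟨a, b⟩ _ ⟨c, d⟩ _ h
    simp only [Prod.mk.injEq] at h ⊢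
    exact ⟨h.2, h.1⟩
  · rintro ⟨a, b⟩ hp
    simp only [mem_filter, mem_product] at hp
    exact ⟨(b, a), by simp only [mem_filter, mem_product]; exact ⟨⟨hp.1.2, hp.1.1⟩, hp.2.symm⟩, rfl⟩

theorem ee_add_compl (H : SimpleGraph V) (A B : Finset V) :
    ee H A B + ee H A Bᶜ = ee H A univ := by
  unfold ee
  rw [← card_union_of_disjoint]
  · congr 1
    ext ⟨a, b⟩
    simp only [mem_filter, mem_product, mem_union, mem_compl, mem_univ, and_true]
    tauto
  · rw [disjoint_left]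
    rintro ⟨a, b⟩ h1 h2
    simp only [mem_filter, mem_product, mem_compl] at h1 h2
    exact h2.1.2 h1.1.2

theorem ee_univ (H : SimpleGraph V) (A : Finset V) : ee H A univ = ∑ v ∈ A, dg H v univ := by
  unfold ee dg
  rw [card_filter, sum_product]
  refine sum_congr rfl fun v _ => ?_
  rw [card_filter]

theorem ee_le_card (H : SimpleGraph V) (A B : Finset V) :
    (ee H A B : ℝ) ≤ A.card * Fintype.card V := by
  have h1 : ee H A B ≤ A.card * B.card := by
    unfold ee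
    exact (card_filter_le _ _).trans (le_of_eq (card_product _ _))
  have h2 : A.card * B.card ≤ A.card * Fintype.card V := Nat.mul_le_mul_left _ (card_le_univ _)
  exact_mod_cast h1.trans h2

/-- few edges from `O` to the complement of `I`, `I` not larger than `O`: few edges from `I` to the
complement of `O`. -/
theorem back (G : SimpleGraph V) (D0 ε ν η : ℝ) (hε : 0 ≤ ε) (hε1 : ε ≤ 1 / 2) (hν : 0 ≤ ν)
    (hm : 0 < Fintype.card V)
    (hreg : ∀ v, |(dg G v univ : ℝ) - D0| ≤ ε * Fintype.card V) (O I : Finset V)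
    (hI : (I.card : ℝ) ≤ O.card + ν * Fintype.card V)
    (hO : (ee G O Iᶜ : ℝ) ≤ η * (Fintype.card V : ℝ) ^ 2) :
    (ee G I Oᶜ : ℝ) ≤ (2 * ν + 2 * ε + η) * (Fintype.card V : ℝ) ^ 2 := by
  set m : ℝ := (Fintype.card V : ℝ) with hmd
  have hm0 : 0 < m := by rw [hmd]; exact_mod_cast hm
  have hOm : (O.card : ℝ) ≤ m := by rw [hmd]; exact_mod_cast card_le_univ O
  have hIm : (I.card : ℝ) ≤ m := by rw [hmd]; exact_mod_cast card_le_univ I
  obtain ⟨v0⟩ : Nonempty V := Fintype.card_pos_iff.1 hm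
  have hD0 : D0 + ε * m ≤ 2 * m := by
    have h1 := abs_le.1 (hreg v0)
    have h2 : (dg G v0 univ : ℝ) ≤ m := by
      rw [hmd]
      have : dg G v0 univ ≤ Fintype.card V := by
        unfold dg
        exact (card_filter_le _ _).trans (le_of_eq card_univ)
      exact_mod_cast this
    nlinarith
  have hD0' : -(ε * m) ≤ D0 := by
    have h1 := abs_le.1 (hreg v0)
    have h2 : (0 : ℝ) ≤ dg G v0 univ := Nat.cast_nonneg _
    linarith
  have h1 : (ee G I univ : ℝ) ≤ I.card * (D0 + ε * m) := by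
    rw [ee_univ]
    push_cast
    calc ∑ v ∈ I, (dg G v univ : ℝ) ≤ ∑ _v ∈ I, (D0 + ε * m) := by
          refine sum_le_sum fun v _ => ?_
          have := abs_le.1 (hreg v)
          linarith
      _ = I.card * (D0 + ε * m) := by rw [sum_const, nsmul_eq_mul]
  have h2 : O.card * (D0 - ε * m) ≤ (ee G O univ : ℝ) := by
    rw [ee_univ]
    push_cast
    calc O.card * (D0 - ε * m) = ∑ _v ∈ O, (D0 - ε * m) := by rw [sum_const, nsmul_eq_mul]
      _ ≤ ∑ v ∈ O, (dg G v univ : ℝ) := by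
          refine sum_le_sum fun v _ => ?_
          have := abs_le.1 (hreg v)
          linarith
  have h3 : (ee G I O : ℝ) + ee G I Oᶜ = ee G I univ := by exact_mod_cast ee_add_compl G I O
  have h4 : (ee G O I : ℝ) + ee G O Iᶜ = ee G O univ := by exact_mod_cast ee_add_compl G O I
  have h5 : (ee G I O : ℝ) = ee G O I := by rw [ee_comm]
  have h6 : (I.card : ℝ) * (D0 + ε * m) ≤ (O.card + ν * m) * (D0 + ε * m) :=
    mul_le_mul_of_nonneg_right hI (by linarith)
  have h7 : ν * m * (D0 + ε * m) ≤ ν * m * (2 * m) :=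
    mul_le_mul_of_nonneg_left hD0 (by positivity)
  have h8 : (O.card : ℝ) * (ε * m) ≤ m * (ε * m) := mul_le_mul_of_nonneg_right hOm (by positivity)
  have h9 : (O.card + ν * m) * (D0 + ε * m) =
      O.card * (D0 - ε * m) + 2 * (O.card * (ε * m)) + ν * m * (D0 + ε * m) := by ring
  have h10 : (ee G I Oᶜ : ℝ) ≤ 2 * (m * (ε * m)) + ν * m * (2 * m) + η * m ^ 2 := by linarith
  refine h10.trans (le_of_eq ?_)
  ring

/-- a set with few leaving edges is small or almost everything -/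
theorem small_or (G : SimpleGraph V) (ρ τ : ℝ) (hρ : 0 < ρ) (hτ : 0 < τ)
    (hm : 0 < Fintype.card V)
    (hcut : ∀ S : Finset V, ρ * S.card * (Sᶜ.card : ℝ) ≤ (ee G S Sᶜ : ℝ)) (J : Finset V)
    (hJ : (ee G J Jᶜ : ℝ) ≤ ρ * τ ^ 2 * (Fintype.card V : ℝ) ^ 2) :
    (J.card : ℝ) ≤ τ * Fintype.card V ∨ (Jᶜ.card : ℝ) ≤ τ * Fintype.card V := by
  by_contra hcon
  push Not at hcon
  obtain ⟨h1, h2⟩ := hcon
  have hm0 : (0 : ℝ) < Fintype.card V := by exact_mod_cast hm
  have h3 := (hcut J).trans hJ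
  have h4 : (τ * Fintype.card V) * (τ * Fintype.card V) < (J.card : ℝ) * Jᶜ.card :=
    mul_lt_mul'' h1 h2 (by positivity) (by positivity)
  have h5 : ρ * ((τ * Fintype.card V) * (τ * Fintype.card V)) < ρ * ((J.card : ℝ) * Jᶜ.card) :=
    mul_lt_mul_of_pos_left h4 hρ
  nlinarith

end ee

/-- The involutions of `rounds` as an edge colouring. -/
theorem to_col {V : Type u} (G Con : SimpleGraph V) (B : Finset ℕ) (D : ℕ → Finset V)
    (f : {b // b ∈ B} → V → V) (h1 : ∀ b v, f b (f b v) = v) (h2 : ∀ b v, f b v = v ↔ v ∈ D b.1)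
    (h3 : ∀ b v, v ∉ D b.1 → G.Adj v (f b v) ∨ Con.Adj v (f b v))
    (h4 : ∀ b b' v, b ≠ b' → f b v = f b' v → f b v = v) :
    ∃ (R : SimpleGraph V) (t : V → V → ℕ), Col (G ⊔ Con) R (fun v => B.filter fun b => v ∉ D b) t := by
  obtain ⟨R, hR⟩ : ∃ R : SimpleGraph V, ∀ v w, R.Adj v w ↔ ((G ⊔ Con).Adj v w ∧ ∀ b, f b v ≠ w) := by
    refine ⟨{ Adj := fun v w => (G ⊔ Con).Adj v w ∧ ∀ b, f b v ≠ w
              symm := ⟨?_⟩
              loopless := ⟨fun v h => (G ⊔ Con).loopless.irrefl v h.1⟩ }, fun _ _ => Iff.rfl⟩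
    rintro v w ⟨h, h'⟩
    refine ⟨h.symm, fun b hb => h' b ?_⟩
    rw [← hb, h1]
  set S : V → V → Set ℕ := fun v w => {b | ∃ h : b ∈ B, f ⟨b, h⟩ v = w} with hS
  have hSs : ∀ v w, S v w = S w v := by
    intro v w
    ext b
    simp only [hS, Set.mem_ofPred_eq]
    constructor
    · rintro ⟨h, rfl⟩
      exact ⟨h, h1 _ _⟩
    · rintro ⟨h, rfl⟩
      exact ⟨h, h1 _ _⟩
  have hmem : ∀ v w, (G ⊔ Con).Adj v w → ¬ R.Adj v w → sInf (S v w) ∈ S v w := by
    intro v w h h'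
    apply Nat.sInf_mem
    rw [hR] at h'
    push Not at h'
    obtain ⟨b, hb⟩ := h' h
    exact ⟨b.1, b.2, hb⟩
  refine ⟨R, fun v w => sInf (S v w), ?_, ?_, ?_, ?_, ?_⟩
  · intro v w h
    exact ((hR v w).1 h).1
  · intro v w
    rw [hSs]
  · intro v w h h'
    obtain ⟨hb, hb'⟩ := hmem v w h h'
    rw [mem_filter]
    refine ⟨hb, fun hD => ?_⟩
    have := (h2 ⟨_, hb⟩ v).2 hD
    rw [hb'] at this
    exact (G ⊔ Con).ne_of_adj h this.symm
  · intro v w w' h h' hw hw' he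
    obtain ⟨hb, hb'⟩ := hmem v w h h'
    obtain ⟨hc, hc'⟩ := hmem v w' hw hw'
    rw [← hb', ← hc']
    congr 2
  · intro v b hb
    rw [mem_filter] at hb
    obtain ⟨hbB, hbD⟩ := hb
    have hadj : (G ⊔ Con).Adj v (f ⟨b, hbB⟩ v) := by
      rw [SimpleGraph.sup_adj]
      exact h3 ⟨b, hbB⟩ v hbD
    have hnR : ¬ R.Adj v (f ⟨b, hbB⟩ v) := by
      rw [hR]
      rintro ⟨_, h⟩
      exact h _ rfl
    refine ⟨f ⟨b, hbB⟩ v, hadj, hnR, ?_⟩
    obtain ⟨hc, hc'⟩ := hmem v _ hadj hnR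
    by_contra hne
    have h5 := h4 ⟨b, hbB⟩ ⟨_, hc⟩ v (fun h => hne (congrArg Subtype.val h).symm) hc'.symm
    exact hbD ((h2 _ _).1 h5)

theorem card_coe_filter (B : Finset ℕ) (p : ℕ → Prop) [DecidablePred p] :
    ((univ : Finset {b // b ∈ B}).filter fun b => p b.1).card = (B.filter p).card := by
  refine card_bij (fun b _ => b.1) ?_ ?_ ?_
  · intro b hb
    rw [mem_filter] at hb ⊢
    exact ⟨b.2, hb.2⟩
  · intro b _ b' _ h
    exact Subtype.ext h
  · intro b hb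
    rw [mem_filter] at hb
    exact ⟨⟨b, hb.1⟩, mem_filter.2 ⟨mem_univ _, hb.2⟩, rfl⟩

end Pool.Agent.Work.MP_db9399_da_helper93
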