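import Pool.Agent.Work.MP_db9399_da_helper93.Est

/-!
# MP_db9399, DENSE-ALL: `RO` from `rounds` (helper93)
-/

set_option autoImplicit false

namespace Pool.Agent.Work.MP_db9399_da_helper93

open Finset Classical
open Pool.Agent.Work.MP_db9399_da_helper72

universe u

/-- `RO` for the host graph `G` from `rounds`, general form: `S` is the set of possible outer
vertices. -/
theorem ro_of (hPerm : Stmt_PERM.{u}) (γ ν : ℝ) (hγ : 0 < γ) (hγ1 : γ ≤ 1) (hν : 0 < ν)
    (hνγ : ν ≤ γ / 16) :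
    ∃ (ε0 : ℝ) (m0 : ℕ), 0 < ε0 ∧ ∀ (r ν1 ε : ℝ), 0 < r → ν ≤ ν1 → 0 < ε → ε ≤ ε0 →
      ∀ (V : Type u) [Fintype V] (G : SimpleGraph V) (S : Finset V) (par : Finset V → Prop),
      m0 ≤ Fintype.card V →
      (∀ v, γ * Fintype.card V + ε * Fintype.card V ≤ r * (dg G v univ : ℝ)) →
      (∀ O : Finset V, O ⊆ S → ∀ I : Finset V, γ / 4 * Fintype.card V ≤ (O.card : ℝ) →
        (I.card : ℝ) ≤ O.card + ν * Fintype.card V →
        (ee G O Iᶜ : ℝ) ≤ (ν + ε) / r * (Fintype.card V : ℝ) ^ 2 →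
        ((S \ O).card : ℝ) ≤ γ / 4 * Fintype.card V) →
      (∀ v ∈ S, ∀ y, G.Adj v y → ∀ z, G.Adj y z → z ∈ S) →
      (∀ (D : Finset V) (f : V → V), par D → (∀ v, f (f v) = v) → (∀ v ∈ D, f v = v) →
        (∀ v, f v ≠ v → G.Adj v (f v)) → (∃ v, v ∉ D ∧ f v = v) →
        ∃ s t, s ≠ t ∧ s ∉ D ∧ t ∉ D ∧ f s = s ∧ f t = t ∧ s ∈ S ∧ ∀ y, G.Adj y t → y ∈ S) →
      RO G par r ν1 ε := by
  obtain ⟨ε0, m0, hε0, hmain⟩ := rounds.{u, 0} hPerm γ ν hγ hγ1 hν hνγ
  refine ⟨ε0, m0, hε0, ?_⟩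
  intro r ν1 ε hr hν1 hε hεε V _ G S par hm hdeg hrob hS hpair
  intro G1 Con B D w e hCon hG1 hsam hsam' hB1 hB2 hd1 hd2 he1 he2 hD1 hD2 hpar
  have hm0 : (0 : ℝ) ≤ Fintype.card V := Nat.cast_nonneg _
  have hεm : ε * Fintype.card V ≤ ε0 * Fintype.card V := mul_le_mul_of_nonneg_right hεε hm0
  have hfil : ∀ v, ((univ : Finset {b // b ∈ B}).filter fun b => v ∈ D b.1).card =
      (B.filter fun b => v ∈ D b).card := fun v => card_coe_filter B (fun b => v ∈ D b)
  obtain ⟨f, hf1, hf2, hf3, hf4⟩ := hmain V {b // b ∈ B} G1 Con S (fun b => D b.1) w e hm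
    (fun x y h => (hG1 x y h).2)
    (by rw [Fintype.card_coe]; exact_mod_cast hB2)
    (by
      rw [Fintype.card_coe]
      exact (mul_le_mul_of_nonneg_right hν1 hm0).trans hB1)
    (by intro v; rw [Fintype.card_coe]; exact hd1 v)
    (by intro v; rw [Fintype.card_coe]; exact hd2 v)
    (he1.trans (mul_le_mul_of_nonneg_right hεε (by positivity)))
    (he2.trans hεm)
    (fun b => (hD1 b.1 b.2).trans hεm)
    (by
      intro v
      rw [hfil]
      exact (hD2 v).trans hεm)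
    (by
      intro v
      have h1 := (abs_le.1 (hsam' v)).1
      have h2 := hdeg v
      linarith)
    (by
      intro O hO I hO1 hI hE
      refine hrob O hO I hO1 hI ?_
      have h1 := (abs_le.1 (hsam O Iᶜ)).1
      rw [div_mul_eq_mul_div, le_div_iff₀ hr]
      nlinarith)
    (by
      intro v hv y hvy z hyz
      refine hS v hv y (hCon _ _ hvy) z ?_
      rcases hyz with h | h
      · exact hCon _ _ h
      · exact (hG1 _ _ h).1)
    (by
      intro b f h1 h2 h3 h4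
      obtain ⟨s, t, hst, hs, ht, hfs, hft, hsS, htS⟩ := hpair (D b.1) f (hpar b.1 b.2) h1 h2 (by
        intro v hv
        rcases h3 v hv with h | h
        · exact (hG1 _ _ h).1
        · exact hCon _ _ h) h4
      exact ⟨s, t, hst, hs, ht, hfs, hft, hsS, fun y hy => htS y (hCon _ _ hy)⟩)
  exact to_col G1 Con B D f hf1 hf2 hf3 hf4

end Pool.Agent.Work.MP_db9399_da_helper93
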